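import Pool.Agent.Lib_MP_22d2c8_oa.Eval

/-!
# Averages over the translates of the grid sets

Every variable lies in at most `p * L` of the sets `gS n p L v v'`.
-/

set_option linter.unusedSectionVars false

namespace Pool.Agent.Lib_MP_22d2c8_oa

open Finset Pool.Agent.Lib_MP_22d2c8_sym Pool.Agent.Lib_MP_22d2c8_ol

variable {n : ℕ} (C : Circuit (Inp n)) (K p L : ℕ) [hp : Fact p.Prime]

omit hp in
private theorem Aver_comm [Fintype (ZMod p)] {ι : Type} (D : Finset ι)
    (f : ZMod p → ZMod p → ι → ℕ) :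
    ∑ v : ZMod p, ∑ v' : ZMod p, ∑ w ∈ D, f v v' w =
      ∑ w ∈ D, ∑ v : ZMod p, ∑ v' : ZMod p, f v v' w := by
  calc ∑ v : ZMod p, ∑ v' : ZMod p, ∑ w ∈ D, f v v' w
      = ∑ v : ZMod p, ∑ w ∈ D, ∑ v' : ZMod p, f v v' w := sum_congr rfl fun v _ => sum_comm
    _ = _ := sum_comm

open Classical in
/-- A point lies in few grid sets. -/
private theorem Aver_point (w : Fin n ⊕ Fin n) :
    ∑ v : ZMod p, ∑ v' : ZMod p, (if w ∈ gS n p L v v' then 1 else 0) ≤ p * L := by
  have hc : Fintype.card (ZMod p) = p := ZMod.card p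
  rcases w with i | j
  · have h1 : ∀ v v' : ZMod p, (if (Sum.inl i : Fin n ⊕ Fin n) ∈ gS n p L v v' then 1 else 0) =
        if i ∈ gA n p L v then 1 else 0 := by
      intro v v'
      simp only [gS, inl_mem_disjSum]
    simp only [h1, sum_const, card_univ, hc, smul_eq_mul]
    rw [← mul_sum, ← card_filter]
    exact Nat.mul_le_mul_left _ (marg_A i)
  · have h1 : ∀ v v' : ZMod p, (if (Sum.inr j : Fin n ⊕ Fin n) ∈ gS n p L v v' then 1 else 0) =
        if j ∈ gB n p L v' then 1 else 0 := by
      intro v v'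
      simp only [gS, inr_mem_disjSum]
    simp only [h1]
    rw [sum_const, card_univ, hc, smul_eq_mul, ← card_filter]
    exact Nat.mul_le_mul_left _ (marg_B j)

open Classical in
/-- A set meets few grid sets. -/
theorem aver_set (D : Finset (Fin n ⊕ Fin n)) :
    ∑ v : ZMod p, ∑ v' : ZMod p, (if (D ∩ gS n p L v v').Nonempty then 1 else 0) ≤
      D.card * (p * L) := by
  have h1 : ∀ v v' : ZMod p, (if (D ∩ gS n p L v v').Nonempty then 1 else 0) ≤
      ∑ w ∈ D, if w ∈ gS n p L v v' then 1 else 0 := by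
    intro v v'
    split_ifs with h
    · obtain ⟨w, hw⟩ := h
      rw [mem_inter] at hw
      have h2 := single_le_sum (f := fun w => if w ∈ gS n p L v v' then 1 else 0)
        (fun _ _ => Nat.zero_le _) hw.1
      simp only [if_pos hw.2] at h2
      exact h2
    · exact Nat.zero_le _
  calc ∑ v : ZMod p, ∑ v' : ZMod p, (if (D ∩ gS n p L v v').Nonempty then 1 else 0)
      ≤ ∑ v : ZMod p, ∑ v' : ZMod p, ∑ w ∈ D, (if w ∈ gS n p L v v' then 1 else 0) :=
        sum_le_sum fun v _ => sum_le_sum fun v' _ => h1 v v'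
    _ = ∑ w ∈ D, ∑ v : ZMod p, ∑ v' : ZMod p, (if w ∈ gS n p L v v' then 1 else 0) := by
        exact Aver_comm p D _
    _ ≤ ∑ w ∈ D, p * L := sum_le_sum fun w _ => Aver_point p L w
    _ = D.card * (p * L) := by rw [sum_const, smul_eq_mul]

open Classical in
/-- The number of wires into big gates. -/
private theorem Aver_wires : (univ.filter fun q : (g : C.Gate) × Fin (C.arity g) =>
    C.Big K q.1).card = C.wires K := by
  have h1 : (univ.filter fun q : (g : C.Gate) × Fin (C.arity g) => C.Big K q.1) =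
      (univ.filter fun g => C.Big K g).sigma fun g => (univ : Finset (Fin (C.arity g))) := by
    ext q
    simp
  rw [h1, card_sigma, Circuit.wires]
  simp only [card_univ, Fintype.card_fin]

theorem sum_tB : ∑ v : ZMod p, ∑ v' : ZMod p, tB C K (gS n p L v v') ≤
    p * L * (max K 1 * C.wires K) := by
  classical
  have h0 : ∀ v v' : ZMod p, tB C K (gS n p L v v') =
      ∑ q ∈ univ.filter (fun q : (g : C.Gate) × Fin (C.arity g) => C.Big K q.1),
        if (lset C K (C.src q.1 q.2) ∩ gS n p L v v').Nonempty then 1 else 0 := by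
    intro v v'
    rw [← card_filter, filter_filter]
    unfold tB
    congr 1
  simp only [h0]
  calc ∑ v : ZMod p, ∑ v' : ZMod p,
        ∑ q ∈ univ.filter (fun q : (g : C.Gate) × Fin (C.arity g) => C.Big K q.1),
          (if (lset C K (C.src q.1 q.2) ∩ gS n p L v v').Nonempty then 1 else 0)
      = ∑ q ∈ univ.filter (fun q : (g : C.Gate) × Fin (C.arity g) => C.Big K q.1),
          ∑ v : ZMod p, ∑ v' : ZMod p,
            (if (lset C K (C.src q.1 q.2) ∩ gS n p L v v').Nonempty then 1 else 0) := by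
        exact Aver_comm p _ _
    _ ≤ ∑ q ∈ univ.filter (fun q : (g : C.Gate) × Fin (C.arity g) => C.Big K q.1),
          max K 1 * (p * L) := sum_le_sum fun q _ =>
        (aver_set p L _).trans (Nat.mul_le_mul_right _ (lset_card _))
    _ = p * L * (max K 1 * C.wires K) := by
        rw [sum_const, smul_eq_mul, Aver_wires]
        ring

open Classical in
theorem sum_wsh (X Z : Finset C.Gate) (hXZ : ∀ h ∈ X, C.Big K h → h ∈ Z) :
    ∑ v : ZMod p, ∑ v' : ZMod p, wsh C K (gS n p L v v') Z ≤
      p * L * ∑ h ∈ univ.filter (fun h => C.Big K h ∧ h ∉ Z ∧ C.Shared K h),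
        fo C K h * (bel C K X h).card := by
  set H : Finset C.Gate := univ.filter (fun h => C.Big K h ∧ h ∉ Z ∧ C.Shared K h) with hH
  have h0 : ∀ v v' : ZMod p, wsh C K (gS n p L v v') Z ≤
      ∑ h ∈ H, fo C K h * if (bel C K X h ∩ gS n p L v v').Nonempty then 1 else 0 := by
    intro v v'
    unfold wsh
    have h1 : (univ.filter fun h => C.Big K h ∧ h ∉ Z ∧ C.Shared K h ∧
        live C K (gS n p L v v') Z h) = H.filter fun h => live C K (gS n p L v v') Z h := by
      ext h
      simp only [hH, mem_filter]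
      tauto
    rw [h1, sum_filter]
    refine sum_le_sum fun h _ => ?_
    split_ifs with h2 h3 h3
    · exact (mul_one _).ge
    · exact absurd (live_bel hXZ h h2) h3
    · exact Nat.zero_le _
    · exact Nat.zero_le _
  calc ∑ v : ZMod p, ∑ v' : ZMod p, wsh C K (gS n p L v v') Z
      ≤ ∑ v : ZMod p, ∑ v' : ZMod p,
          ∑ h ∈ H, fo C K h * (if (bel C K X h ∩ gS n p L v v').Nonempty then 1 else 0) :=
        sum_le_sum fun v _ => sum_le_sum fun v' _ => h0 v v'
    _ = ∑ h ∈ H, ∑ v : ZMod p, ∑ v' : ZMod p,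
          fo C K h * (if (bel C K X h ∩ gS n p L v v').Nonempty then 1 else 0) := by
        exact Aver_comm p H _
    _ = ∑ h ∈ H, fo C K h * ∑ v : ZMod p, ∑ v' : ZMod p,
          (if (bel C K X h ∩ gS n p L v v').Nonempty then 1 else 0) := by
        refine sum_congr rfl fun h _ => ?_
        simp only [← mul_sum]
    _ ≤ ∑ h ∈ H, fo C K h * ((bel C K X h).card * (p * L)) :=
        sum_le_sum fun h _ => Nat.mul_le_mul_left _ (aver_set p L _)
    _ = p * L * ∑ h ∈ H, fo C K h * (bel C K X h).card := by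
        rw [mul_sum]
        refine sum_congr rfl fun h _ => ?_
        ring

open Classical in
private theorem Aver_fo {W U : Type} [DecidableEq W] (C : Circuit (W ⊕ U)) (K : ℕ)
    (X : Finset C.Gate) : ∑ h ∈ shg C K X, fo C K h ≤
      (univ.filter fun q : (g : C.Gate) × Fin (C.arity g) => C.Big K q.1).card := by
  unfold fo
  rw [← card_biUnion]
  · refine card_le_card ?_
    intro q hq
    rw [mem_biUnion] at hq
    obtain ⟨h, -, hh⟩ := hq
    rw [mem_filter] at hh ⊢
    exact ⟨mem_univ _, hh.2.1⟩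
  · intro a _ b _ hab
    rw [Function.onFun, disjoint_left]
    intro q hqa hqb
    rw [mem_filter] at hqa hqb
    exact hab (Sum.inr_injective (hqa.2.2.symm.trans hqb.2.2))

open Classical in
/-- The wires from shared big gates to big gates are wires into big gates. -/
theorem sum_fo (X : Finset C.Gate) : ∑ h ∈ shg C K X, fo C K h ≤ C.wires K := by
  rw [← Aver_wires]
  exact Aver_fo C K X

end Pool.Agent.Lib_MP_22d2c8_oa
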