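import Pool.Agent.Lib_MP_22d2c8_oa.Main

/-!
# The average over the assignments outside `S`
-/

set_option linter.unusedSectionVars false

namespace Pool.Agent.Lib_MP_22d2c8_oa

open Finset Pool.Agent.Lib_MP_22d2c8_sym Pool.Agent.Lib_MP_22d2c8_ol

section

variable {W : Type} [DecidableEq W] [Fintype W]

/-- swap on `S` -/
def swp (S : Finset W) (p : (W → Bool) × (W → Bool)) : (W → Bool) × (W → Bool) :=
  (fun w => if w ∈ S then p.2 w else p.1 w, fun w => if w ∈ S then p.1 w else p.2 w)

theorem swp_inv (S : Finset W) : Function.Involutive (swp S) := by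
  rintro ⟨a, b⟩
  unfold swp
  refine Prod.ext ?_ ?_
  · funext w
    simp only
    by_cases h : w ∈ S
    · rw [if_pos h, if_pos h]
    · rw [if_neg h, if_neg h]
  · funext w
    simp only
    by_cases h : w ∈ S
    · rw [if_pos h, if_pos h]
    · rw [if_neg h, if_neg h]

theorem sum_swp (S : Finset W) (h : (W → Bool) → ℝ) :
    ∑ α : W → Bool, ∑ s : W → Bool, h (fun w => if w ∈ S then s w else α w) =
      2 ^ Fintype.card W * ∑ β, h β := by
  have h1 : ∑ α : W → Bool, ∑ s : W → Bool, h (fun w => if w ∈ S then s w else α w) =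
      ∑ p : (W → Bool) × (W → Bool), h (swp S p).1 := by
    rw [Fintype.sum_prod_type]
    rfl
  have h2 : ∑ p : (W → Bool) × (W → Bool), h (swp S p).1 =
      ∑ p : (W → Bool) × (W → Bool), h p.1 :=
    Equiv.sum_comp (swp_inv S).toPerm fun p : (W → Bool) × (W → Bool) => h p.1
  rw [h1, h2, Fintype.sum_prod_type, mul_sum]
  refine sum_congr rfl fun β _ => ?_
  simp only [sum_const]
  rw [card_univ, Fintype.card_fun, Fintype.card_bool, nsmul_eq_mul]
  push_cast
  rfl

end

variable {n : ℕ}

theorem sum_cor (A B : Finset (Fin n)) (G : (Inp n → Bool) → ℝ) :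
    ∑ α, cor A B α G = 2 ^ (2 * n) * ∑ x, G x * sgn (hank x) := by
  classical
  set S := A.disjSum B with hS
  set H : (Inp n → Bool) → ℝ := fun x => G x * sgn (hank x) with hH
  have h1 : ∀ α, cor A B α G = ∑ t : Fin (2 * n - 1) → Bool, ∑ s : Fin n ⊕ Fin n → Bool,
      H (Sum.elim (fun w => if w ∈ S then s w else α w) t) := by
    intro α
    unfold cor
    refine sum_congr rfl fun t _ => ?_
    have h2 : ∀ s : Fin n ⊕ Fin n → Bool, inpt S α t s =
        Sum.elim (fun w => if w ∈ S then s w else α w) t := by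
      intro s
      funext v
      rcases v with v | v <;> rfl
    have h3 := Equiv.sum_comp (Equiv.sumArrowEquivProdArrow (Fin n) (Fin n) Bool).symm
      fun s => H (Sum.elim (fun w => if w ∈ S then s w else α w) t)
    rw [← h3]
    refine sum_congr rfl fun q _ => ?_
    rw [← h2]
    rfl
  rw [sum_congr rfl fun α _ => h1 α, sum_comm]
  have h4 : ∀ t : Fin (2 * n - 1) → Bool, ∑ α : Fin n ⊕ Fin n → Bool,
      ∑ s : Fin n ⊕ Fin n → Bool, H (Sum.elim (fun w => if w ∈ S then s w else α w) t) =
      2 ^ (2 * n) * ∑ β, H (Sum.elim β t) := by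
    intro t
    have h5 := sum_swp S fun β => H (Sum.elim β t)
    rw [h5]
    congr 2
    rw [Fintype.card_sum, Fintype.card_fin, two_mul]
  rw [sum_congr rfl fun t _ => h4 t, ← mul_sum]
  congr 1
  rw [sum_comm]
  have h6 := Equiv.sum_comp
    (Equiv.sumArrowEquivProdArrow (Fin n ⊕ Fin n) (Fin (2 * n - 1)) Bool).symm H
  rw [← h6, Fintype.sum_prod_type]
  rfl

theorem exists_alpha (A B : Finset (Fin n)) (G : (Inp n → Bool) → ℝ) (c : ℝ)
    (hc : c ≤ ∑ x, G x * sgn (hank x)) : ∃ α, c ≤ cor A B α G := by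
  by_contra hcon
  push Not at hcon
  have h1 : ∑ α, cor A B α G < ∑ _α : Fin n ⊕ Fin n → Bool, c :=
    sum_lt_sum_of_nonempty univ_nonempty fun α _ => hcon α
  rw [sum_cor, sum_const, card_univ, Fintype.card_fun, Fintype.card_bool, Fintype.card_sum,
    Fintype.card_fin, nsmul_eq_mul, ← two_mul] at h1
  push_cast at h1
  have h2 : (0 : ℝ) < 2 ^ (2 * n) := by positivity
  have h3 := lt_of_mul_lt_mul_left h1 h2.le
  linarith

open Classical in
theorem sum_agree (hn : 1 ≤ n) (C : Circuit (Inp n)) :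
    ∑ x, sgn (C.val x C.out) * sgn (hank x) =
      2 * ((univ.filter fun x : Inp n → Bool => C.val x C.out = hank x).card : ℝ) -
        2 ^ (4 * n - 1) := by
  have h1 : ∀ x : Inp n → Bool, sgn (C.val x C.out) * sgn (hank x) =
      2 * (if C.val x C.out = hank x then (1 : ℝ) else 0) - 1 := by
    intro x
    unfold sgn
    cases C.val x C.out <;> cases hank x <;> norm_num
  rw [sum_congr rfl fun x _ => h1 x, sum_sub_distrib, ← mul_sum, sum_const, card_univ,
    Fintype.card_fun, Fintype.card_bool, ← sum_filter, sum_const]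
  simp only [nsmul_eq_mul, mul_one]
  have h2 : Fintype.card (Inp n) = 4 * n - 1 := by
    unfold Inp
    rw [Fintype.card_sum, Fintype.card_sum, Fintype.card_fin, Fintype.card_fin]
    omega
  rw [h2]
  push_cast
  rfl

end Pool.Agent.Lib_MP_22d2c8_oa
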