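import Pool.Agent.Lib_MP_22d2c8_oa.Main

/-!
# One scale: a circuit that agrees with the function more than by chance has many live wires
-/

set_option linter.unusedSectionVars false

namespace Pool.Agent.Lib_MP_22d2c8_oa

open Finset Pool.Agent.Lib_MP_22d2c8_sym Pool.Agent.Lib_MP_22d2c8_ol

variable {n : ℕ}

/-- A sum over classes. -/
theorem class_sum {ι : Type*} (I : Finset ι) (D T R : ι → ℝ) (x y M1 M2 : ℝ)
    (hT : ∀ i ∈ I, 0 ≤ T i) (hR : ∀ i ∈ I, 0 ≤ R i) (hx : 0 ≤ x) (hy : 0 ≤ y)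
    (hD : ∀ i ∈ I, D i ^ 2 ≤ x * (T i ^ 2 * R i) + y * (R i * T i))
    (h1 : (∑ i ∈ I, T i) * ∑ i ∈ I, R i * T i ≤ M1)
    (h2 : (I.card : ℝ) * ∑ i ∈ I, R i * T i ≤ M2) :
    |∑ i ∈ I, D i| ≤ √(x * M1) + √(y * M2) := by
  have hRT : ∀ i ∈ I, 0 ≤ R i * T i := fun i hi => mul_nonneg (hR i hi) (hT i hi)
  have hDi : ∀ i ∈ I, |D i| ≤ √x * (√(T i) * √(R i * T i)) + √y * (1 * √(R i * T i)) := by
    intro i hi
    refine abs_le_of_sq_le_sq ?_ ?_
    · refine (hD i hi).trans ?_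
      have e1 : √x ^ 2 = x := Real.sq_sqrt hx
      have e2 : √y ^ 2 = y := Real.sq_sqrt hy
      have e3 : √(T i) ^ 2 = T i := Real.sq_sqrt (hT i hi)
      have e4 : √(R i * T i) ^ 2 = R i * T i := Real.sq_sqrt (hRT i hi)
      have e5 : (√x * (√(T i) * √(R i * T i)) + √y * (1 * √(R i * T i))) ^ 2 =
          x * (T i ^ 2 * R i) + y * (R i * T i) +
            2 * (√x * (√(T i) * √(R i * T i))) * (√y * (1 * √(R i * T i))) := by
        calc (√x * (√(T i) * √(R i * T i)) + √y * (1 * √(R i * T i))) ^ 2 =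
            √x ^ 2 * (√(T i) ^ 2 * √(R i * T i) ^ 2) + √y ^ 2 * √(R i * T i) ^ 2 +
              2 * (√x * (√(T i) * √(R i * T i))) * (√y * (1 * √(R i * T i))) := by ring
          _ = _ := by
            rw [e1, e2, e3, e4]
            ring
      rw [e5]
      have e6 : 0 ≤ 2 * (√x * (√(T i) * √(R i * T i))) * (√y * (1 * √(R i * T i))) := by
        positivity
      linarith
    · positivity
  have hX : ∑ i ∈ I, √(T i) * √(R i * T i) ≤ √M1 := by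
    refine Real.le_sqrt_of_sq_le ?_
    refine (sum_mul_sq_le_sq_mul_sq I (fun i => √(T i)) fun i => √(R i * T i)).trans ?_
    refine le_trans (le_of_eq ?_) h1
    congr 1
    · exact sum_congr rfl fun i hi => Real.sq_sqrt (hT i hi)
    · exact sum_congr rfl fun i hi => Real.sq_sqrt (hRT i hi)
  have hY : ∑ i ∈ I, 1 * √(R i * T i) ≤ √M2 := by
    refine Real.le_sqrt_of_sq_le ?_
    refine (sum_mul_sq_le_sq_mul_sq I (fun _ => (1 : ℝ)) fun i => √(R i * T i)).trans ?_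
    refine le_trans (le_of_eq ?_) h2
    congr 1
    · rw [sum_const, nsmul_eq_mul, one_pow, mul_one]
    · exact sum_congr rfl fun i hi => Real.sq_sqrt (hRT i hi)
  calc |∑ i ∈ I, D i| ≤ ∑ i ∈ I, |D i| := abs_sum_le_sum_abs _ _
    _ ≤ ∑ i ∈ I, (√x * (√(T i) * √(R i * T i)) + √y * (1 * √(R i * T i))) := sum_le_sum hDi
    _ = √x * ∑ i ∈ I, √(T i) * √(R i * T i) + √y * ∑ i ∈ I, 1 * √(R i * T i) := by
        rw [sum_add_distrib, mul_sum, mul_sum]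
    _ ≤ √x * √M1 + √y * √M2 := add_le_add (mul_le_mul_of_nonneg_left hX (Real.sqrt_nonneg _))
        (mul_le_mul_of_nonneg_left hY (Real.sqrt_nonneg _))
    _ = √(x * M1) + √(y * M2) := by rw [Real.sqrt_mul hx, Real.sqrt_mul hy]

/-- the final arithmetic -/
theorem arith2 (n z ρ m e k : ℕ) (Lw c : ℝ) (hz : z + 2 * k + 2 ≤ ρ) (hρ : ρ ≤ n)
    (hL : 2 ^ e * Lw ≤ 2 ^ (2 * n - 1))
    (hc : 2 * ((2 : ℝ) ^ (2 * n - 1) * 2 ^ (2 * n)) / 2 ^ k ≤ c)
    (hc2 : c ≤ √(2 ^ n * 2 ^ (n - ρ) * (2 ^ z * 2 ^ (2 * n - 1) * (2 ^ (2 * n - 1) * 2 ^ (2 * n)))) +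
      √(2 ^ n * (2 ^ n * Lw) * (2 ^ z * 2 ^ m * (2 ^ (2 * n - 1) * 2 ^ (2 * n))))) :
    e ≤ z + m + 2 * k := by
  set M : ℝ := 2 ^ (2 * n - 1) * 2 ^ (2 * n) with hM
  have hM0 : 0 < M := by positivity
  have hX : √(2 ^ n * 2 ^ (n - ρ) * (2 ^ z * 2 ^ (2 * n - 1) * M)) ≤ M / 2 ^ (k + 1) := by
    refine Real.sqrt_le_iff.2 ⟨by positivity, ?_⟩
    rw [div_pow, le_div_iff₀ (by positivity)]
    have e1 : (2 : ℝ) ^ (n - ρ) * 2 ^ z * (2 ^ (k + 1)) ^ 2 ≤ 2 ^ n := by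
      rw [← pow_mul, ← pow_add, ← pow_add]
      exact pow_le_pow_right₀ (by norm_num) (by omega)
    have e2 : (2 : ℝ) ^ n * 2 ^ n = 2 ^ (2 * n) := by rw [← pow_add, two_mul]
    calc 2 ^ n * 2 ^ (n - ρ) * (2 ^ z * 2 ^ (2 * n - 1) * M) * (2 ^ (k + 1)) ^ 2
        = (2 ^ (n - ρ) * 2 ^ z * (2 ^ (k + 1)) ^ 2) * (2 ^ n * 2 ^ (2 * n - 1) * M) := by ring
      _ ≤ 2 ^ n * (2 ^ n * 2 ^ (2 * n - 1) * M) := mul_le_mul_of_nonneg_right e1 (by positivity)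
      _ = (2 ^ n * 2 ^ n) * 2 ^ (2 * n - 1) * M := by ring
      _ = M ^ 2 := by rw [e2, hM]; ring
  have hY : M / 2 ^ k ≤ √(2 ^ n * (2 ^ n * Lw) * (2 ^ z * 2 ^ m * M)) := by
    have e1 : M / 2 ^ (k + 1) = M / 2 ^ k / 2 := by
      rw [pow_succ, div_div]
    have e2 : 2 * M / 2 ^ k = 2 * (M / 2 ^ k) := by ring
    have e3 : 0 ≤ M / 2 ^ k := by positivity
    rw [e1] at hX
    rw [e2] at hc
    linarith
  by_contra hlt
  have hlt2 : z + m + 2 * k + 1 ≤ e := by omega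
  have hY2 : (M / 2 ^ k) ^ 2 ≤ 2 ^ n * (2 ^ n * Lw) * (2 ^ z * 2 ^ m * M) := by
    by_cases hpos : 0 ≤ 2 ^ n * (2 ^ n * Lw) * (2 ^ z * 2 ^ m * M)
    · have h1 := pow_le_pow_left₀ (by positivity : 0 ≤ M / 2 ^ k) hY 2
      rwa [Real.sq_sqrt hpos] at h1
    · rw [Real.sqrt_eq_zero_of_nonpos (le_of_not_ge hpos)] at hY
      have : 0 < M / 2 ^ k := by positivity
      linarith
  rw [div_pow, div_le_iff₀ (by positivity)] at hY2
  have hLpos : 0 < Lw := by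
    by_contra hneg
    have h1 : 2 ^ n * (2 ^ n * Lw) * (2 ^ z * 2 ^ m * M) * (2 ^ k) ^ 2 ≤ 0 := by
      have h2 : (2 : ℝ) ^ n * (2 ^ n * Lw) * (2 ^ z * 2 ^ m * M) * (2 ^ k) ^ 2 =
          (2 ^ n * 2 ^ n * (2 ^ z * 2 ^ m * M) * (2 ^ k) ^ 2) * Lw := by ring
      rw [h2]
      exact mul_nonpos_of_nonneg_of_nonpos (by positivity) (le_of_not_gt hneg)
    have h3 : 0 < M ^ 2 := by positivity
    linarith
  have e2 : (2 : ℝ) ^ n * 2 ^ n = 2 ^ (2 * n) := by rw [← pow_add, two_mul]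
  have e4 : (2 : ℝ) ^ z * 2 ^ m * (2 ^ k) ^ 2 * 2 ≤ 2 ^ e := by
    have : (2 : ℝ) ^ z * 2 ^ m * (2 ^ k) ^ 2 * 2 = 2 ^ (z + m + 2 * k + 1) := by
      rw [← pow_mul, ← pow_add, ← pow_add, ← pow_succ, mul_comm k 2]
    rw [this]
    exact pow_le_pow_right₀ (by norm_num) hlt2
  have e5 : 2 * M ^ 2 ≤ M ^ 2 := by
    calc 2 * M ^ 2 ≤ 2 * (2 ^ n * (2 ^ n * Lw) * (2 ^ z * 2 ^ m * M) * (2 ^ k) ^ 2) := by linarith
      _ = (2 ^ z * 2 ^ m * (2 ^ k) ^ 2 * 2) * ((2 ^ n * 2 ^ n) * M * Lw) := by ring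
      _ ≤ 2 ^ e * ((2 ^ n * 2 ^ n) * M * Lw) := mul_le_mul_of_nonneg_right e4 (by positivity)
      _ = (2 ^ n * 2 ^ n) * M * (2 ^ e * Lw) := by ring
      _ ≤ (2 ^ n * 2 ^ n) * M * 2 ^ (2 * n - 1) := mul_le_mul_of_nonneg_left hL (by positivity)
      _ = M ^ 2 := by rw [e2, hM]; ring
  have h3 : 0 < M ^ 2 := by positivity
  linarith

/-- One scale, fixed assignment outside `S`. -/
theorem one_alpha {p L : ℕ} [hp : Fact p.Prime] (hn : 2 * p * p ≤ n) (h2p : p ≠ 2) (hL1 : 1 ≤ L)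
    (hL2 : 2 * L ≤ p) (C : Circuit (Inp n)) (K ω k : ℕ)
    (hop : ∀ g, C.Big K g → SubPow (2 ^ ω) (C.op g)) (hout : C.Big K C.out) (Z : Finset C.Gate)
    (hZ : ∀ g ∈ Z, C.Big K g) (hZc : Z.card + 2 * k + 2 ≤ p * L / 16) (v v' : ZMod p)
    (α : Fin n ⊕ Fin n → Bool)
    (hcor : 2 * ((2 : ℝ) ^ (2 * n - 1) * 2 ^ (2 * n)) / 2 ^ k ≤
      cor (Lib_MP_22d2c8_ol.gA n p L v) (Lib_MP_22d2c8_ol.gB n p L v') α
        fun x => sgn (C.val x C.out)) :
    p * p / 8 ≤ Z.card +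
      (ω * ((2 * (tB C K (gS n p L v v') + wsh C K (gS n p L v v') Z) + 1) +
          (Z.card + 1 + (tB C K (gS n p L v v') + wsh C K (gS n p L v v') Z))) +
        2 ^ max K 1 * (2 * (tB C K (gS n p L v v') + wsh C K (gS n p L v v') Z) + 1)) + 2 * k := by
  classical
  set A := Lib_MP_22d2c8_ol.gA n p L v with hA
  set B := Lib_MP_22d2c8_ol.gB n p L v' with hB
  set m := ω * ((2 * (tB C K (gS n p L v v') + wsh C K (gS n p L v v') Z) + 1) +
          (Z.card + 1 + (tB C K (gS n p L v v') + wsh C K (gS n p L v v') Z))) +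
        2 ^ max K 1 * (2 * (tB C K (gS n p L v v') + wsh C K (gS n p L v v') Z) + 1) with hm
  have hρn : p * L / 16 ≤ n := by
    have h1 : p * L ≤ p * p := Nat.mul_le_mul_left _ (by omega)
    have h2 : 2 * p * p = 2 * (p * p) := by ring
    omega
  have hκ : ∀ t, t ∉ lows A B (p * L / 16) → kap A B t ≤ 2 ^ (n - p * L / 16) := by
    intro t ht
    have h1 : ¬ (2 ^ n < 2 ^ (p * L / 16) * kap A B t) := fun h =>
      ht (mem_filter.2 ⟨mem_univ _, h⟩)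
    have h2 : 2 ^ n = 2 ^ (p * L / 16) * 2 ^ (n - p * L / 16) := by
      rw [← pow_add]
      congr 1
      omega
    rw [h2] at h1
    exact Nat.le_of_mul_le_mul_left (Nat.le_of_not_lt h1) (by positivity)
  have h4 := lows_grid h2p hn hL1 hL2 v v'
  have h4' : (2 : ℝ) ^ (p * p / 8) * (lows A B (p * L / 16)).card ≤ 2 ^ (2 * n - 1) := by
    exact_mod_cast h4
  set α' : Fin n → Bool := fun i => α (Sum.inl i) with hα'
  set β' : Fin n → Bool := fun i => α (Sum.inr i) with hβ'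
  have hαe : α = Sum.elim α' β' := by
    funext w
    rcases w with w | w <;> rfl
  have hceq := cor_eq C K A B Z α α' β' hαe
  set I := (gss Z).sigma fun z => ims C K A B Z α z with hI
  set Lw : ℝ := ((lows A B (p * L / 16)).card : ℝ) with hLw
  have hLw0 : 0 ≤ Lw := Nat.cast_nonneg _
  have hsig : cor A B α (fun x => sgn (C.val x C.out)) = ∑ c ∈ I,
      ∑ t ∈ cls C K A B Z α c.1 c.2, ∑ q ∈ con C Z c.1 c.2,
        sgn (c.2 C.out (Sum.elim q.1 q.2)) * chi (fm A B α' β' t q) := by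
    rw [hceq, hI, sum_sigma]
  have hImg : ∀ z, (ims C K A B Z α z).card ≤ 2 ^ m := fun z =>
    ims_card C K A B Z α ω hop hout hZ z
  have hgss : (gss Z).card ≤ 2 ^ Z.card := by
    have := supp_card Z
    unfold gss
    convert this
  have hIc : (I.card : ℝ) ≤ 2 ^ Z.card * 2 ^ m := by
    have h1 : I.card ≤ 2 ^ Z.card * 2 ^ m := by
      rw [hI, card_sigma]
      refine (sum_le_card_nsmul _ _ (2 ^ m) fun z _ => hImg z).trans ?_
      rw [smul_eq_mul]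
      exact Nat.mul_le_mul_right _ hgss
    exact_mod_cast h1
  have hRT : ∑ c ∈ I, ((con C Z c.1 c.2).card : ℝ) * (cls C K A B Z α c.1 c.2).card =
      2 ^ (2 * n - 1) * 2 ^ (2 * n) := by
    rw [hI, sum_sigma]
    exact count_RT C K A B Z α
  have hTT : ∑ c ∈ I, ((cls C K A B Z α c.1 c.2).card : ℝ) ≤ 2 ^ Z.card * 2 ^ (2 * n - 1) := by
    rw [hI, sum_sigma]
    rw [sum_congr rfl fun z _ => count_T C K A B Z α z, sum_const, nsmul_eq_mul]
    refine mul_le_mul_of_nonneg_right ?_ (by positivity)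
    exact_mod_cast hgss
  have hmain := class_sum I (fun c => ∑ t ∈ cls C K A B Z α c.1 c.2, ∑ q ∈ con C Z c.1 c.2,
        sgn (c.2 C.out (Sum.elim q.1 q.2)) * chi (fm A B α' β' t q))
    (fun c => ((cls C K A B Z α c.1 c.2).card : ℝ)) (fun c => ((con C Z c.1 c.2).card : ℝ))
    (2 ^ n * 2 ^ (n - p * L / 16)) (2 ^ n * (2 ^ n * Lw))
    (2 ^ Z.card * 2 ^ (2 * n - 1) * (2 ^ (2 * n - 1) * 2 ^ (2 * n)))
    (2 ^ Z.card * 2 ^ m * (2 ^ (2 * n - 1) * 2 ^ (2 * n)))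
    (fun _ _ => Nat.cast_nonneg _) (fun _ _ => Nat.cast_nonneg _) (by positivity)
    (mul_nonneg (pow_nonneg (by norm_num) _) (mul_nonneg (pow_nonneg (by norm_num) _) hLw0))
    (fun c _ => by
      have h1 := corr_class A B α' β' (con C Z c.1 c.2) (cls C K A B Z α c.1 c.2)
        (lows A B (p * L / 16)) (2 ^ (n - p * L / 16))
        (fun q => sgn (c.2 C.out (Sum.elim q.1 q.2))) (fun q => (abs_sgn _).le) hκ
      refine h1.trans (le_of_eq ?_)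
      push_cast
      ring)
    (by
      rw [hRT]
      exact mul_le_mul_of_nonneg_right hTT (by positivity))
    (by
      rw [hRT]
      exact mul_le_mul_of_nonneg_right hIc (by positivity))
  rw [← hsig] at hmain
  exact arith2 n Z.card (p * L / 16) m (p * p / 8) k Lw _ hZc hρn h4' hcor
    ((le_abs_self _).trans hmain)

end Pool.Agent.Lib_MP_22d2c8_oa
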