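import Pool.Agent.Lib_MP_22d2c8_oa.Defs

/-!
# Correlation of a class of `t` with functions of the restricted input
-/

namespace Pool.Agent.Lib_MP_22d2c8_oa

open Finset Pool.Agent.Lib_MP_22d2c8_sym Pool.Agent.Lib_MP_22d2c8_ol

variable {n : ℕ}

/-- `a` on `A` and `α` elsewhere -/
def mix (A : Finset (Fin n)) (a α : Fin n → Bool) : Fin n → Bool := fun i => if i ∈ A then a i else α i

/-- the form on the mixed vectors -/
def fm (A B : Finset (Fin n)) (α β : Fin n → Bool) (t : Fin (2 * n - 1) → Bool)
    (q : (Fin n → Bool) × (Fin n → Bool)) : ZMod 2 :=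
  bil univ univ t (mix A q.1 α) (mix B q.2 β)

theorem sgn_decide (r : ZMod 2) : sgn (decide (r = 1)) = chi r := by
  rcases zmod_cases r with rfl | rfl
  · rw [chi_zero]
    unfold sgn
    simp
  · rw [chi_one]
    unfold sgn
    simp

theorem abs_chi (r : ZMod 2) : |chi r| = 1 := by
  rcases zmod_cases r with rfl | rfl
  · rw [chi_zero, abs_one]
  · rw [chi_one, abs_neg, abs_one]

theorem abs_sgn (a : Bool) : |sgn a| = 1 := by
  cases a
  · change |(1 : ℝ)| = 1
    exact abs_one
  · change |(-1 : ℝ)| = 1
    rw [abs_neg, abs_one]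

theorem hank_mix (A B : Finset (Fin n)) (α β : Fin n → Bool) (t : Fin (2 * n - 1) → Bool)
    (a b : Fin n → Bool) :
    hank (inpt (A.disjSum B) (Sum.elim α β) t (Sum.elim a b)) =
      decide (fm A B α β t (a, b) = 1) := by
  have h2 : ∀ i : Fin n, inpt (A.disjSum B) (Sum.elim α β) t (Sum.elim a b) (Sum.inl (Sum.inl i)) =
      mix A a α i := by
    intro i
    unfold inpt mix
    simp only [inl_mem_disjSum, Sum.elim_inl]
  have h3 : ∀ i : Fin n, inpt (A.disjSum B) (Sum.elim α β) t (Sum.elim a b) (Sum.inl (Sum.inr i)) =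
      mix B b β i := by
    intro i
    unfold inpt mix
    simp only [inr_mem_disjSum, Sum.elim_inr]
  unfold hank fm bil
  simp only [h2, h3]
  rfl

/-- coefficient of `y_j` -/
def cf (t : Fin (2 * n - 1) → Bool) (x : Fin n → Bool) (j : Fin n) : ZMod 2 :=
  ∑ i, bit (t (ad i j)) * bit (x i)

theorem chi_flip (A B : Finset (Fin n)) (α β : Fin n → Bool) (t : Fin (2 * n - 1) → Bool)
    (a : Fin n → Bool) (j : Fin n) (hj : j ∈ B) (hc : cf t (mix A a α) j = 1) :
    ∑ b, chi (fm A B α β t (a, b)) = 0 := by
  have h1 : ∀ b, chi (fm A B α β t (a, flipb j b)) = -chi (fm A B α β t (a, b)) := by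
    intro b
    have e1 : fm A B α β t (a, flipb j b) = fm A B α β t (a, b) + 1 := by
      have hs : ∀ y : Fin n → Bool, bil univ univ t (mix A a α) y =
          cf t (mix A a α) j * bit (y j) +
            ∑ x ∈ univ.erase j, cf t (mix A a α) x * bit (y x) := by
        intro y
        rw [bil_eq]
        exact (add_sum_erase univ (fun x => cf t (mix A a α) x * bit (y x)) (mem_univ j)).symm
      unfold fm
      simp only
      rw [hs, hs, hc]
      have e2 : ∑ x ∈ univ.erase j, cf t (mix A a α) x * bit (mix B (flipb j b) β x) =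
          ∑ x ∈ univ.erase j, cf t (mix A a α) x * bit (mix B b β x) := by
        refine sum_congr rfl fun x hx => ?_
        have hne : x ≠ j := (mem_erase.1 hx).1
        unfold mix flipb
        rw [Function.update_of_ne hne]
      have e3 : bit (mix B (flipb j b) β j) = bit (mix B b β j) + 1 := by
        unfold mix flipb
        rw [if_pos hj, if_pos hj, Function.update_self]
        cases b j <;> rfl
      rw [e2, e3]
      ring
    rw [e1, chi_add, chi_one]
    ring
  have h2 : ∑ b, chi (fm A B α β t (a, flipb j b)) = ∑ b, chi (fm A B α β t (a, b)) :=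
    Equiv.sum_comp (flipb_inv j).toPerm fun b => chi (fm A B α β t (a, b))
  rw [sum_congr rfl fun b _ => h1 b, sum_neg_distrib] at h2
  linarith

theorem card_fun_bool (m : ℕ) : (univ : Finset (Fin m → Bool)).card = 2 ^ m := by
  rw [card_univ, Fintype.card_fun, Fintype.card_bool, Fintype.card_fin]

theorem sum_chi_le (A B : Finset (Fin n)) (α β : Fin n → Bool) (t : Fin (2 * n - 1) → Bool) :
    |∑ q, chi (fm A B α β t q)| ≤ 2 ^ n * (kap A B t : ℝ) := by
  classical
  set G : Finset (Fin n → Bool) := univ.filter fun a => ∀ j ∈ B, cf t (mix A a α) j = 0 with hG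
  have hGk : G.card ≤ kap A B t := by
    rcases G.eq_empty_or_nonempty with h0 | ⟨a0, ha0⟩
    · rw [h0, card_empty]
      exact Nat.zero_le _
    · unfold kap
      refine card_le_card_of_injOn (fun a => fun i => xor (a i) (a0 i)) ?_ ?_
      · intro a ha
        refine mem_coe.2 (mem_filter.2 ⟨mem_univ _, fun j hj => ?_⟩)
        have h1 := (mem_filter.1 (mem_coe.1 ha)).2 j hj
        have h2 := (mem_filter.1 ha0).2 j hj
        have h3 : cf t (mix A a α) j + cf t (mix A a0 α) j =
            ∑ i ∈ A, bit (t (ad i j)) * bit (xor (a i) (a0 i)) := by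
          unfold cf
          rw [← sum_add_distrib, ← sum_subset (subset_univ A)]
          · refine sum_congr rfl fun i hi => ?_
            unfold mix
            rw [if_pos hi, if_pos hi, bit_xor]
            ring
          · intro i _ hi
            unfold mix
            rw [if_neg hi, if_neg hi]
            have h4 : ∀ r : ZMod 2, r + r = 0 := by decide
            exact h4 _
        rw [h1, h2, add_zero] at h3
        exact h3.symm
      · intro a _ a' _ h
        funext i
        have h1 := congrFun h i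
        simp only at h1
        revert h1
        cases a i <;> cases a' i <;> cases a0 i <;> decide
  have h1 : ∀ a, |∑ b, chi (fm A B α β t (a, b))| ≤ if a ∈ G then (2 : ℝ) ^ n else 0 := by
    intro a
    by_cases ha : a ∈ G
    · rw [if_pos ha]
      refine (abs_sum_le_sum_abs _ _).trans ?_
      simp only [abs_chi]
      rw [sum_const, nsmul_eq_mul, mul_one, card_fun_bool]
      push_cast
      exact le_refl _
    · rw [if_neg ha]
      have h2 : ∃ j ∈ B, cf t (mix A a α) j ≠ 0 := by
        by_contra hc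
        push Not at hc
        exact ha (mem_filter.2 ⟨mem_univ _, hc⟩)
      obtain ⟨j, hj, hr⟩ := h2
      rw [chi_flip A B α β t a j hj ((zmod_cases _).resolve_left hr), abs_zero]
  rw [Fintype.sum_prod_type]
  refine (abs_sum_le_sum_abs _ _).trans ?_
  refine (sum_le_sum fun a _ => h1 a).trans ?_
  rw [← sum_filter, sum_const, nsmul_eq_mul, mul_comm]
  have h3 : (univ.filter fun a => a ∈ G).card = G.card := by
    congr 1
    ext a
    simp
  rw [h3]
  exact mul_le_mul_of_nonneg_left (by exact_mod_cast hGk) (by positivity)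

theorem fm_xr (A B : Finset (Fin n)) (α β : Fin n → Bool) (t t' : Fin (2 * n - 1) → Bool)
    (q : (Fin n → Bool) × (Fin n → Bool)) :
    fm A B α β (xr t t') q = fm A B α β t q + fm A B α β t' q := bil_xr _ _ _ _ _ _

/-- The correlation of a class `T` with a function `φ` on `R`. -/
theorem corr_class (A B : Finset (Fin n)) (α β : Fin n → Bool)
    (R : Finset ((Fin n → Bool) × (Fin n → Bool))) (T Low : Finset (Fin (2 * n - 1) → Bool))
    (κ : ℕ) (φ : (Fin n → Bool) × (Fin n → Bool) → ℝ) (hφ : ∀ q, |φ q| ≤ 1)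
    (hL : ∀ t, t ∉ Low → kap A B t ≤ κ) :
    (∑ t ∈ T, ∑ q ∈ R, φ q * chi (fm A B α β t q)) ^ 2 ≤
      R.card * (T.card * (2 ^ n * (κ * T.card + 2 ^ n * Low.card))) := by
  classical
  have h0 : ∑ t ∈ T, ∑ q ∈ R, φ q * chi (fm A B α β t q) =
      ∑ q ∈ R, φ q * ∑ t ∈ T, chi (fm A B α β t q) := by
    rw [sum_comm]
    refine sum_congr rfl fun q _ => ?_
    rw [mul_sum]
  have hup : ∑ q, (∑ t ∈ T, chi (fm A B α β t q)) ^ 2 ≤
      T.card * (2 ^ n * (κ * T.card + 2 ^ n * Low.card)) := by
    have h1 : ∀ q, (∑ t ∈ T, chi (fm A B α β t q)) ^ 2 =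
        ∑ t ∈ T, ∑ t' ∈ T, chi (fm A B α β (xr t t') q) := by
      intro q
      rw [sq, sum_mul_sum]
      refine sum_congr rfl fun t _ => sum_congr rfl fun t' _ => ?_
      rw [fm_xr, chi_add]
    rw [sum_congr rfl fun q _ => h1 q, sum_comm]
    have h2 : ∀ t ∈ T, ∑ q, ∑ t' ∈ T, chi (fm A B α β (xr t t') q) ≤
        2 ^ n * (κ * T.card + 2 ^ n * Low.card) := by
      intro t _
      rw [sum_comm]
      have h3 : ∀ t' ∈ T, ∑ q, chi (fm A B α β (xr t t') q) ≤
          2 ^ n * (κ + if xr t t' ∈ Low then (2 : ℝ) ^ n else 0) := by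
        intro t' _
        refine (le_abs_self _).trans ((sum_chi_le A B α β (xr t t')).trans ?_)
        refine mul_le_mul_of_nonneg_left ?_ (by positivity)
        by_cases h : xr t t' ∈ Low
        · rw [if_pos h]
          have h2 : (kap A B (xr t t') : ℝ) ≤ 2 ^ n := by exact_mod_cast kap_le A B (xr t t')
          have h3 : (0 : ℝ) ≤ κ := Nat.cast_nonneg _
          linarith
        · rw [if_neg h, add_zero]
          exact_mod_cast hL _ h
      refine (sum_le_sum h3).trans ?_
      rw [← mul_sum]
      refine mul_le_mul_of_nonneg_left ?_ (by positivity)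
      rw [sum_add_distrib, sum_const, nsmul_eq_mul, ← sum_filter, sum_const, nsmul_eq_mul]
      have h2 : ((T.filter fun t' => xr t t' ∈ Low).card : ℝ) ≤ Low.card := by
        have h3 : (T.filter fun t' => xr t t' ∈ Low).card ≤ Low.card := by
          refine card_le_card_of_injOn (fun t' => xr t t') ?_ ?_
          · intro t' ht'
            exact (mem_filter.1 ht').2
          · intro u _ v _ huv
            have h4 : xr t (xr t u) = xr t (xr t v) := congrArg (xr t) huv
            rwa [xr_xr, xr_xr] at h4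
        exact_mod_cast h3
      have h4 : ((T.filter fun t' => xr t t' ∈ Low).card : ℝ) * 2 ^ n ≤ Low.card * 2 ^ n :=
        mul_le_mul_of_nonneg_right h2 (by positivity)
      linarith
    refine (sum_le_sum h2).trans ?_
    rw [sum_const, nsmul_eq_mul]
  rw [h0]
  refine (sum_mul_sq_le_sq_mul_sq R φ fun q => ∑ t ∈ T, chi (fm A B α β t q)).trans ?_
  refine mul_le_mul ?_ ?_ (sum_nonneg fun _ _ => sq_nonneg _) (Nat.cast_nonneg _)
  · have h1 : ∀ q ∈ R, φ q ^ 2 ≤ 1 := by
      intro q _
      have h2 := hφ q
      rw [← sq_abs]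
      have h3 := abs_nonneg (φ q)
      nlinarith
    refine (sum_le_sum h1).trans ?_
    rw [sum_const, nsmul_eq_mul, mul_one]
  · refine le_trans ?_ hup
    exact sum_le_sum_of_subset_of_nonneg (subset_univ _) fun _ _ _ => sq_nonneg _

end Pool.Agent.Lib_MP_22d2c8_oa
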