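import Pool.Agent.Lib_MP_22d2c8_oa.Defs

/-!
# OL-Eval: live sources, guessed evaluation, segments
-/

set_option linter.unusedSectionVars false

namespace Pool.Agent.Lib_MP_22d2c8_oa

open Finset Pool.Agent.Lib_MP_22d2c8_sym

variable {W U : Type} [DecidableEq W] {C : Circuit (W ⊕ U)} {K : ℕ}

theorem below_eq (g : C.Gate) : below C g = univ.biUnion fun i =>
    C.look own (fun _ B => B) (below C) (C.src g i) := by
  unfold below
  rw [Circuit.fold_eq]

theorem below_src {g h : C.Gate} {i : Fin (C.arity g)} (hi : C.src g i = Sum.inr h) :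
    below C h ⊆ below C g := by
  intro w hw
  rw [below_eq, mem_biUnion]
  refine ⟨i, mem_univ _, ?_⟩
  rw [hi]
  exact hw

theorem below_inl {g : C.Gate} {v : W} {i : Fin (C.arity g)}
    (hi : C.src g i = Sum.inl (Sum.inl v)) : v ∈ below C g := by
  rw [below_eq, mem_biUnion]
  refine ⟨i, mem_univ _, ?_⟩
  rw [hi]
  exact mem_singleton_self v

/-- the value of a gate depends only on the variables below -/
theorem val_below (x x' : W ⊕ U → Bool) (hu : ∀ u, x (Sum.inr u) = x' (Sum.inr u))
    (g : C.Gate) (hg : ∀ v ∈ below C g, x (Sum.inl v) = x' (Sum.inl v)) :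
    C.val x g = C.val x' g := by
  have key : ∀ (m : ℕ) (g : C.Gate), g.val = m →
      (∀ v ∈ below C g, x (Sum.inl v) = x' (Sum.inl v)) → C.val x g = C.val x' g := by
    intro m
    induction m using Nat.strong_induction_on with
    | _ m ih =>
      intro g hgm hg
      rw [C.val_eq, C.val_eq]
      congr 1
      funext i
      rcases hσ : C.src g i with (v | u) | h
      · exact hg v (below_inl hσ)
      · exact hu u
      · have h2 := C.src_lt g i h hσ
        exact ih h.val (hgm ▸ h2) h rfl fun v hv => hg v (below_src hσ hv)
  exact key g.val g rfl hg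

theorem sset_spec {h : C.Gate} (hs : C.Small K h) :
    (sset C K h).card ≤ K ∧ ∀ x x' : W ⊕ U → Bool,
      (∀ v ∈ sset C K h, x (Sum.inl v) = x' (Sum.inl v)) →
        (∀ u, x (Sum.inr u) = x' (Sum.inr u)) → C.val x h = C.val x' h := by
  classical
  have h0 : sset C K h = hs.choose ∩ below C h := by
    unfold sset
    rw [dif_pos hs]
  rw [h0]
  refine ⟨(card_le_card inter_subset_left).trans hs.choose_spec.1, ?_⟩
  intro x x' hv hu
  set x2 : W ⊕ U → Bool := fun v => match v with
    | Sum.inl w => if w ∈ hs.choose then x (Sum.inl w) else x' (Sum.inl w)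
    | Sum.inr u => x (Sum.inr u) with hx2
  have h1 : C.val x h = C.val x2 h := by
    refine hs.choose_spec.2 x x2 ?_ fun u => rfl
    intro v hvS
    change _ = if v ∈ hs.choose then x (Sum.inl v) else x' (Sum.inl v)
    rw [if_pos hvS]
  have h2 : C.val x2 h = C.val x' h := by
    refine val_below x2 x' hu h ?_
    intro v hvB
    change (if v ∈ hs.choose then x (Sum.inl v) else x' (Sum.inl v)) = _
    by_cases hc : v ∈ hs.choose
    · rw [if_pos hc]
      exact hv v (mem_inter.2 ⟨hc, hvB⟩)
    · rw [if_neg hc]
  rw [h1, h2]

theorem sset_below (h : C.Gate) : sset C K h ⊆ below C h := by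
  unfold sset
  split
  · exact inter_subset_right
  · exact empty_subset _

theorem sset_big {h : C.Gate} (hs : C.Big K h) : sset C K h = ∅ := by
  unfold sset
  rw [dif_neg hs]

theorem lset_card (σ : (W ⊕ U) ⊕ C.Gate) : (lset C K σ).card ≤ max K 1 := by
  rcases σ with (w | u) | h
  · exact (card_singleton w).le.trans (le_max_right _ _)
  · exact Nat.zero_le _
  · by_cases hs : C.Small K h
    · exact (sset_spec hs).1.trans (le_max_left _ _)
    · change (sset C K h).card ≤ _
      rw [sset_big hs]
      exact Nat.zero_le _

variable {S : Finset W} {Z X : Finset C.Gate} {α : W → Bool}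

theorem live_iff {g : C.Gate} : live C K S Z g ↔ ∃ i, liveS C K S Z (C.src g i) := by
  unfold live
  rw [Circuit.fold_eq]
  rfl

theorem liveS_inl {v : W ⊕ U} :
    liveS C K S Z (Sum.inl v) ↔ (lset C K (Sum.inl v) ∩ S).Nonempty := Iff.rfl

theorem liveS_small {h : C.Gate} (hs : C.Small K h) :
    liveS C K S Z (Sum.inr h) ↔ (sset C K h ∩ S).Nonempty := by
  unfold liveS Circuit.look
  simp only
  rw [if_pos hs]

theorem liveS_big {h : C.Gate} (hs : C.Big K h) :
    liveS C K S Z (Sum.inr h) ↔ h ∉ Z ∧ live C K S Z h := by
  unfold liveS Circuit.look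
  simp only
  rw [if_neg hs]

theorem bel_eq (g : C.Gate) : bel C K X g = univ.biUnion fun i => belS C K X (C.src g i) := by
  unfold bel
  rw [Circuit.fold_eq]
  rfl

theorem belS_inl {v : W ⊕ U} : belS C K X (Sum.inl v) = lset C K (Sum.inl v) := rfl

theorem belS_small {h : C.Gate} (hs : C.Small K h) : belS C K X (Sum.inr h) = sset C K h := by
  unfold belS Circuit.look
  simp only
  rw [if_pos hs]

theorem belS_mem {h : C.Gate} (hs : C.Big K h) (hX : h ∈ X) :
    belS C K X (Sum.inr h) = ∅ := by
  unfold belS Circuit.look
  simp only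
  rw [if_neg hs, if_pos hX]

theorem belS_big {h : C.Gate} (hs : C.Big K h) (hX : h ∉ X) :
    belS C K X (Sum.inr h) = bel C K X h := by
  unfold belS Circuit.look
  simp only
  rw [if_neg hs, if_neg hX]

theorem bel_below (g : C.Gate) : bel C K X g ⊆ below C g := by
  have key : ∀ (m : ℕ) (g : C.Gate), g.val = m → bel C K X g ⊆ below C g := by
    intro m
    induction m using Nat.strong_induction_on with
    | _ m ih =>
      intro g hgm
      rw [bel_eq]
      intro w hw
      rw [mem_biUnion] at hw
      obtain ⟨i, -, hi⟩ := hw
      rcases hσ : C.src g i with (v | u) | h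
      · rw [hσ] at hi
        have h1 : w = v := mem_singleton.1 hi
        rw [h1]
        exact below_inl hσ
      · rw [hσ] at hi
        exact absurd hi (notMem_empty _)
      · rw [hσ] at hi
        refine below_src hσ ?_
        by_cases hs : C.Small K h
        · rw [belS_small hs] at hi
          exact sset_below h hi
        · by_cases hX : h ∈ X
          · rw [belS_mem hs hX] at hi
            exact absurd hi (notMem_empty _)
          · rw [belS_big hs hX] at hi
            have h2 := C.src_lt g i h hσ
            exact ih h.val (hgm ▸ h2) h rfl hi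
  exact key g.val g rfl

theorem live_bel (hXZ : ∀ h ∈ X, C.Big K h → h ∈ Z) (g : C.Gate) (hg : live C K S Z g) :
    (bel C K X g ∩ S).Nonempty := by
  have key : ∀ (m : ℕ) (g : C.Gate), g.val = m → live C K S Z g → (bel C K X g ∩ S).Nonempty := by
    intro m
    induction m using Nat.strong_induction_on with
    | _ m ih =>
      intro g hgm hg
      obtain ⟨i, hi⟩ := live_iff.1 hg
      have h1 : (belS C K X (C.src g i) ∩ S).Nonempty := by
        rcases hσ : C.src g i with v | h
        · rw [hσ] at hi
          exact hi
        · rw [hσ] at hi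
          by_cases hs : C.Small K h
          · rw [belS_small hs]
            exact (liveS_small hs).1 hi
          · obtain ⟨hZ, hl⟩ := (liveS_big hs).1 hi
            rw [belS_big hs fun hX => hZ (hXZ h hX hs)]
            have h2 := C.src_lt g i h hσ
            exact ih h.val (hgm ▸ h2) h rfl hl
      obtain ⟨w, hw⟩ := h1
      rw [mem_inter] at hw
      refine ⟨w, mem_inter.2 ⟨?_, hw.2⟩⟩
      rw [bel_eq, mem_biUnion]
      exact ⟨i, mem_univ _, hw.1⟩
  exact key g.val g rfl hg

theorem mv_eq {z : C.Gate → Bool} {x : W ⊕ U → Bool} (g : C.Gate) :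
    mv C K Z z x g = C.op g fun i => mvS C K Z z x (C.src g i) := by
  unfold mv
  rw [Circuit.fold_eq]
  rfl

theorem mvS_inl {z : C.Gate → Bool} {x : W ⊕ U → Bool} {v : W ⊕ U} :
    mvS C K Z z x (Sum.inl v) = x v := rfl

theorem mvS_small {z : C.Gate → Bool} {x : W ⊕ U → Bool} {h : C.Gate} (hs : C.Small K h) :
    mvS C K Z z x (Sum.inr h) = C.val x h := by
  unfold mvS Circuit.look
  simp only
  rw [if_pos hs]

theorem mvS_mem {z : C.Gate → Bool} {x : W ⊕ U → Bool} {h : C.Gate} (hs : C.Big K h)
    (hZ : h ∈ Z) : mvS C K Z z x (Sum.inr h) = z h := by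
  unfold mvS Circuit.look
  simp only
  rw [if_neg hs, if_pos hZ]

theorem mvS_notMem {z : C.Gate → Bool} {x : W ⊕ U → Bool} {h : C.Gate} (hs : C.Big K h)
    (hZ : h ∉ Z) : mvS C K Z z x (Sum.inr h) = mv C K Z z x h := by
  unfold mvS Circuit.look
  simp only
  rw [if_neg hs, if_neg hZ]

/-- a guess that is correct, or consistent, gives the true values -/
theorem mv_val (z : C.Gate → Bool) (x : W ⊕ U → Bool)
    (hZ : (∀ g ∈ Z, C.val x g = z g) ∨ ∀ g ∈ Z, mv C K Z z x g = z g) (g : C.Gate) :
    mv C K Z z x g = C.val x g := by
  have key : ∀ (m : ℕ) (g : C.Gate), g.val = m → mv C K Z z x g = C.val x g := by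
    intro m
    induction m using Nat.strong_induction_on with
    | _ m ih =>
      intro g hgm
      rw [mv_eq, C.val_eq]
      congr 1
      funext i
      rcases hσ : C.src g i with v | h
      · rfl
      · have h2 := C.src_lt g i h hσ
        have h3 := ih h.val (hgm ▸ h2) h rfl
        by_cases hs : C.Small K h
        · rw [mvS_small hs]
          rfl
        · by_cases hZh : h ∈ Z
          · rw [mvS_mem hs hZh]
            change z h = C.val x h
            rcases hZ with hZ | hZ
            · exact (hZ h hZh).symm
            · rw [← hZ h hZh, h3]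
          · rw [mvS_notMem hs hZh]
            exact h3
  exact key g.val g rfl

theorem val_inpt {h : C.Gate} (hs : C.Small K h) (t : U → Bool) (s s' : W → Bool)
    (hD : ∀ w ∈ sset C K h, w ∈ S → s w = s' w) :
    C.val (inpt S α t s) h = C.val (inpt S α t s') h := by
  refine (sset_spec hs).2 _ _ ?_ fun _ => rfl
  intro w hw
  unfold inpt
  simp only
  by_cases hwS : w ∈ S
  · rw [if_pos hwS, if_pos hwS, hD w hw hwS]
  · rw [if_neg hwS, if_neg hwS]

theorem mvS_const (z : C.Gate → Bool) (t : U → Bool) (s s' : W → Bool)
    (σ : (W ⊕ U) ⊕ C.Gate) (hσ : ¬ liveS C K S Z σ) :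
    mvS C K Z z (inpt S α t s) σ = mvS C K Z z (inpt S α t s') σ := by
  have key : ∀ (m : ℕ) (g : C.Gate), g.val = m → ¬ live C K S Z g →
      mv C K Z z (inpt S α t s) g = mv C K Z z (inpt S α t s') g := by
    intro m
    induction m using Nat.strong_induction_on with
    | _ m ih =>
      intro g hgm hg
      rw [mv_eq, mv_eq]
      congr 1
      funext i
      have hi : ¬ liveS C K S Z (C.src g i) := fun h => hg (live_iff.2 ⟨i, h⟩)
      rcases hσ : C.src g i with v | h
      · rw [mvS_inl, mvS_inl]
        rcases v with w | u
        · unfold inpt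
          simp only
          have hw : w ∉ S := by
            intro hw
            apply hi
            rw [hσ]
            exact ⟨w, mem_inter.2 ⟨mem_singleton_self w, hw⟩⟩
          rw [if_neg hw, if_neg hw]
        · rfl
      · have h2 := C.src_lt g i h hσ
        rw [hσ] at hi
        by_cases hs : C.Small K h
        · rw [mvS_small hs, mvS_small hs]
          refine val_inpt hs t s s' fun w hw hwS => ?_
          exact absurd ((liveS_small hs).2 ⟨w, mem_inter.2 ⟨hw, hwS⟩⟩) hi
        · by_cases hZh : h ∈ Z
          · rw [mvS_mem hs hZh, mvS_mem hs hZh]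
          · rw [mvS_notMem hs hZh, mvS_notMem hs hZh]
            exact ih h.val (hgm ▸ h2) h rfl fun hl => hi ((liveS_big hs).2 ⟨hZh, hl⟩)
  rcases σ with v | h
  · rw [mvS_inl, mvS_inl]
    rcases v with w | u
    · unfold inpt
      simp only
      have hw : w ∉ S := by
        intro hw
        exact hσ ⟨w, mem_inter.2 ⟨mem_singleton_self w, hw⟩⟩
      rw [if_neg hw, if_neg hw]
    · rfl
  · by_cases hs : C.Small K h
    · rw [mvS_small hs, mvS_small hs]
      refine val_inpt hs t s s' fun w hw hwS => ?_
      exact absurd ((liveS_small hs).2 ⟨w, mem_inter.2 ⟨hw, hwS⟩⟩) hσ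
    · by_cases hZh : h ∈ Z
      · rw [mvS_mem hs hZh, mvS_mem hs hZh]
      · rw [mvS_notMem hs hZh, mvS_notMem hs hZh]
        exact key h.val h rfl fun hl => hσ ((liveS_big hs).2 ⟨hZh, hl⟩)

/-- A live source is a unary function of an earlier node or a function of few variables. -/
theorem segment (z : C.Gate → Bool) (g : C.Gate) (i : Fin (C.arity g))
    (hi : liveS C K S Z (C.src g i)) :
    (∃ r : C.Gate, r < g ∧ Node C K S Z r ∧ ∀ t : U → Bool, ∃ c : Bool → Bool, ∀ s : W → Bool,
      mvS C K Z z (inpt S α t s) (C.src g i) = c (mv C K Z z (inpt S α t s) r)) ∨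
    ∃ D : Finset W, D.card ≤ max K 1 ∧ ∀ (t : U → Bool) (s s' : W → Bool),
      (∀ w ∈ D, s w = s' w) →
        mvS C K Z z (inpt S α t s) (C.src g i) = mvS C K Z z (inpt S α t s') (C.src g i) := by
  have key : ∀ (m : ℕ) (g : C.Gate) (i : Fin (C.arity g)), g.val = m →
      liveS C K S Z (C.src g i) →
      (∃ r : C.Gate, r < g ∧ Node C K S Z r ∧ ∀ t : U → Bool, ∃ c : Bool → Bool,
        ∀ s : W → Bool, mvS C K Z z (inpt S α t s) (C.src g i) = c (mv C K Z z (inpt S α t s) r)) ∨
      ∃ D : Finset W, D.card ≤ max K 1 ∧ ∀ (t : U → Bool) (s s' : W → Bool),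
        (∀ w ∈ D, s w = s' w) →
          mvS C K Z z (inpt S α t s) (C.src g i) = mvS C K Z z (inpt S α t s') (C.src g i) := by
    intro m
    induction m using Nat.strong_induction_on with
    | _ m ih =>
      intro g i hgm hi
      rcases hσ : C.src g i with v | h
      · right
        refine ⟨lset C K (Sum.inl v), lset_card _, ?_⟩
        intro t s s' hD
        rw [mvS_inl, mvS_inl]
        rcases v with w | u
        · unfold inpt
          simp only
          rw [hD w (mem_singleton_self w)]
        · rfl
      · have h2 := C.src_lt g i h hσ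
        rw [hσ] at hi
        by_cases hs : C.Small K h
        · right
          refine ⟨sset C K h, (sset_spec hs).1.trans (le_max_left _ _), ?_⟩
          intro t s s' hD
          rw [mvS_small hs, mvS_small hs]
          exact val_inpt hs t s s' fun w hw _ => hD w hw
        · obtain ⟨hZh, hl⟩ := (liveS_big hs).1 hi
          by_cases hN : Node C K S Z h
          · left
            refine ⟨h, h2, hN, fun t => ⟨id, fun s => ?_⟩⟩
            rw [mvS_notMem hs hZh]
            rfl
          · -- exactly one live source
            obtain ⟨j, hj⟩ := live_iff.1 hl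
            have hnl : nl C K S Z h ≤ 1 := by
              by_contra hc
              exact hN (Or.inr (Or.inr ⟨hs, hl, Or.inl (by omega)⟩))
            have huniq : ∀ j', j' ≠ j → ¬ liveS C K S Z (C.src h j') := by
              intro j' hne hl'
              have h3 : ({j, j'} : Finset (Fin (C.arity h))).card ≤ nl C K S Z h := by
                unfold nl
                refine card_le_card ?_
                intro k hk
                rw [mem_insert, mem_singleton] at hk
                have h4 : liveS C K S Z (C.src h k) := by
                  rcases hk with rfl | rfl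
                  · exact hj
                  · exact hl'
                classical
                exact mem_filter.2 ⟨mem_univ _, h4⟩
              rw [card_pair (Ne.symm hne)] at h3
              omega
            have hrec := ih h.val (hgm ▸ h2) h j rfl hj
            have hconst : ∀ (t : U → Bool) (s s' : W → Bool) (j' : Fin (C.arity h)), j' ≠ j →
                mvS C K Z z (inpt S α t s) (C.src h j') = mvS C K Z z (inpt S α t s') (C.src h j') :=
              fun t s s' j' hne => mvS_const z t s s' _ (huniq j' hne)
            have hval : ∀ (t : U → Bool) (s : W → Bool), mvS C K Z z (inpt S α t s) (Sum.inr h) =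
                C.op h fun j' => if j' = j then mvS C K Z z (inpt S α t s) (C.src h j) else
                  mvS C K Z z (inpt S α t fun _ => false) (C.src h j') := by
              intro t s
              rw [mvS_notMem hs hZh, mv_eq]
              congr 1
              funext j'
              by_cases hjj : j' = j
              · subst hjj
                rw [if_pos rfl]
              · rw [if_neg hjj]
                exact hconst t s _ j' hjj
            rcases hrec with ⟨r, hr1, hr2, hr3⟩ | ⟨D, hD1, hD2⟩
            · left
              refine ⟨r, hr1.trans h2, hr2, fun t => ?_⟩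
              obtain ⟨c, hc⟩ := hr3 t
              refine ⟨fun b => C.op h fun j' => if j' = j then c b else
                mvS C K Z z (inpt S α t fun _ => false) (C.src h j'), fun s => ?_⟩
              rw [hval, hc s]
            · right
              refine ⟨D, hD1, fun t s s' hss => ?_⟩
              rw [hval, hval, hD2 t s s' hss]
  exact key g.val g i rfl hi

end Pool.Agent.Lib_MP_22d2c8_oa
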