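import Pool.Agent.Lib_MP_22d2c8_oa.Eval

/-!
# Sharing depth one outside an exceptional set

The sets of big gates outside `X` from which a path of big gates outside `X` leads to a shared gate
outside `X` are disjoint for different shared gates.
-/

set_option linter.unusedSectionVars false

namespace Pool.Agent.Lib_MP_22d2c8_oa

open Finset Pool.Agent.Lib_MP_22d2c8_sym

variable {W U : Type} [DecidableEq W] (C : Circuit (W ⊕ U)) (K : ℕ) (X : Finset C.Gate)

private theorem one_path {g h : C.Gate} (hh : C.Big K h) (hX : h ∉ X)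
    (hr : Relation.ReflTransGen (Step C K X) g h) :
    ∃ p : List C.Gate, C.IsBigPath K X (g :: p) ∧ (g = h ∨ h ∈ p) := by
  induction hr using Relation.ReflTransGen.head_induction_on with
  | refl =>
    refine ⟨[], ⟨List.isChain_singleton _, ?_⟩, Or.inl rfl⟩
    intro g hg
    rw [List.mem_singleton] at hg
    subst hg
    exact ⟨hh, hX⟩
  | head h1 h2 ih =>
    rename_i a c
    obtain ⟨p, ⟨hp1, hp2⟩, hp3⟩ := ih
    refine ⟨c :: p, ⟨List.isChain_cons_cons.2 ⟨h1.2.2.2.2, hp1⟩, ?_⟩, Or.inr ?_⟩
    · intro g hg
      rcases List.mem_cons.1 hg with rfl | hg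
      · exact ⟨h1.1, h1.2.2.1⟩
      · exact hp2 g hg
    · rcases hp3 with rfl | hp3
      · exact List.mem_cons_self
      · exact List.mem_cons_of_mem _ hp3

private theorem one_reach (h1 : C.SharingDepthLE K X 1) {g h : C.Gate} (hh : C.Big K h)
    (hX : h ∉ X) (hr : Relation.ReflTransGen (Step C K X) g h) (sg : C.Shared K g) (sh : C.Shared K h) :
    g = h := by
  by_contra hne
  obtain ⟨p, hp, hp3⟩ := one_path C K X hh hX hr
  have key : ∀ q : C.Gate → Bool, (∀ g, C.Shared K g → q g = true) →
      (g :: p).countP q ≤ 1 → False := by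
    intro q hq h2
    rw [List.countP_cons_of_pos (hq g sg)] at h2
    have h3 : 0 < p.countP q :=
      List.countP_pos_iff.2 ⟨h, hp3.resolve_left hne, hq h sh⟩
    omega
  refine key _ ?_ (h1 _ hp)
  intro g hg
  exact @decide_eq_true _ (_) hg

private theorem one_shared {g c c' : C.Gate} (hc : Step C K X g c) (hc' : Step C K X g c')
    (hne : c ≠ c') : C.Shared K g := by
  obtain ⟨-, b, -, -, s, hs⟩ := hc
  obtain ⟨-, b', -, -, s', hs'⟩ := hc'
  have hp : (⟨c, s⟩ : (g : C.Gate) × Fin (C.arity g)) ≠ ⟨c', s'⟩ := by
    intro h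
    exact hne (congrArg Sigma.fst h)
  refine Finset.one_lt_card.2 ⟨⟨c, s⟩, ?_, ⟨c', s'⟩, ?_, hp⟩
  · exact (@Finset.mem_filter _ _ (_) _ _).2 ⟨mem_univ _, b, hs⟩
  · exact (@Finset.mem_filter _ _ (_) _ _).2 ⟨mem_univ _, b', hs'⟩

private theorem one_uniq (h1 : C.SharingDepthLE K X 1) {h h' : C.Gate} (hh : C.Big K h)
    (hh' : C.Big K h') (hX : h ∉ X) (hX' : h' ∉ X) (sh : C.Shared K h) (sh' : C.Shared K h') (hne : h ≠ h') {g : C.Gate}
    (hr : Relation.ReflTransGen (Step C K X) g h) :
    ¬ Relation.ReflTransGen (Step C K X) g h' := by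
  induction hr using Relation.ReflTransGen.head_induction_on with
  | refl =>
    intro hr'
    exact hne (one_reach C K X h1 hh' hX' hr' sh sh')
  | head h2 h3 ih =>
    rename_i a c
    intro hr'
    have h4 : Relation.ReflTransGen (Step C K X) a h := Relation.ReflTransGen.head h2 h3
    rcases Relation.ReflTransGen.cases_head hr' with heq | ⟨c', hc', hr''⟩
    · subst heq
      exact hne (one_reach C K X h1 hh hX h4 sh' sh).symm
    · by_cases hcc : c = c'
      · subst hcc
        exact ih hr''
      · have sg := one_shared C K X h2 hc' hcc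
        have h5 := one_reach C K X h1 hh hX h4 sg sh
        subst h5
        exact hne (one_reach C K X h1 hh' hX' hr' sh sh')

open Classical in
private noncomputable def oneCone (h : C.Gate) : Finset ((g : C.Gate) × Fin (C.arity g)) :=
  univ.filter fun p => C.Big K p.1 ∧ Relation.ReflTransGen (Step C K X) p.1 h

private theorem one_bel (h : C.Gate) (hh : C.Big K h) (hhX : h ∉ X) :
    bel C K X h ⊆ (oneCone C K X h).biUnion fun p => lset C K (C.src p.1 p.2) := by
  classical
  have key : ∀ (m : ℕ) (g : C.Gate), g.val = m → C.Big K g → g ∉ X →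
      Relation.ReflTransGen (Step C K X) g h →
      bel C K X g ⊆ (oneCone C K X h).biUnion fun p => lset C K (C.src p.1 p.2) := by
    intro m
    induction m using Nat.strong_induction_on with
    | _ m ih =>
      intro g hgm hg hgX hgr
      rw [bel_eq]
      intro w hw
      rw [mem_biUnion] at hw
      obtain ⟨i, -, hi⟩ := hw
      have hmem : (⟨g, i⟩ : (g : C.Gate) × Fin (C.arity g)) ∈ oneCone C K X h :=
        mem_filter.2 ⟨mem_univ _, hg, hgr⟩
      rcases hσ : C.src g i with v | h'
      · rw [hσ, belS_inl] at hi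
        refine mem_biUnion.2 ⟨⟨g, i⟩, hmem, ?_⟩
        change w ∈ lset C K (C.src g i)
        rw [hσ]
        exact hi
      · rw [hσ] at hi
        by_cases hs : C.Small K h'
        · rw [belS_small hs] at hi
          refine mem_biUnion.2 ⟨⟨g, i⟩, hmem, ?_⟩
          change w ∈ lset C K (C.src g i)
          rw [hσ]
          exact hi
        · by_cases hX : h' ∈ X
          · rw [belS_mem hs hX] at hi
            exact absurd hi (notMem_empty _)
          · rw [belS_big hs hX] at hi
            have h2 := C.src_lt g i h' hσ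
            exact ih h'.val (hgm ▸ h2) h' rfl hs hX
              (Relation.ReflTransGen.head ⟨hs, hg, hX, hgX, i, hσ⟩ hgr) hi
  exact key h.val h rfl hh hhX Relation.ReflTransGen.refl

private theorem one_wires : (univ.filter fun p : (g : C.Gate) × Fin (C.arity g) =>
    @decide (C.Big K p.1) (Classical.propDecidable _) = true).card = C.wires K := by
  classical
  have h1 : (univ.filter fun p : (g : C.Gate) × Fin (C.arity g) =>
      @decide (C.Big K p.1) (Classical.propDecidable _) = true) =
      (univ.filter fun g : C.Gate => C.Big K g).sigma fun _ => univ := by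
    ext p
    simp
  rw [h1, card_sigma]
  unfold Circuit.wires
  refine Finset.sum_congr ?_ fun g _ => ?_
  · ext g
    simp
  · rw [card_univ, Fintype.card_fin]

/-- The number of variables below shared gates, if few shared gates are reached from every gate. -/
theorem reach_level (r : ℕ) (hr : ∀ g, C.Big K g → g ∉ X → (reach C K X g).card ≤ r) :
    ∑ h ∈ shg C K X, (bel C K X h).card ≤ max K 1 * (r * C.wires K) := by
  classical
  have hmem : ∀ h ∈ shg C K X, C.Big K h ∧ h ∉ X ∧ C.Shared K h := fun h hh =>
    (mem_filter.1 hh).2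
  have h2 : ∀ h ∈ shg C K X, (bel C K X h).card ≤ max K 1 * (oneCone C K X h).card := by
    intro h hh
    refine (card_le_card (one_bel C K X h (hmem h hh).1 (hmem h hh).2.1)).trans ?_
    refine card_biUnion_le.trans ?_
    refine (Finset.sum_le_sum fun p _ => lset_card (C := C) (K := K) (C.src p.1 p.2)).trans ?_
    rw [Finset.sum_const, smul_eq_mul, mul_comm]
  refine (Finset.sum_le_sum h2).trans ?_
  rw [← Finset.mul_sum]
  refine Nat.mul_le_mul_left _ ?_
  set P : Finset ((g : C.Gate) × Fin (C.arity g)) := univ.filter fun p => C.Big K p.1 with hP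
  have hcone : ∀ h ∈ shg C K X, (oneCone C K X h).card = ∑ p ∈ P,
      if Relation.ReflTransGen (Step C K X) p.1 h then 1 else 0 := by
    intro h _
    rw [← card_filter, hP, filter_filter]
    unfold oneCone
    congr 1
  rw [Finset.sum_congr rfl hcone, Finset.sum_comm]
  have hPc : P.card = C.wires K := by
    rw [← one_wires]
    congr 1
    ext p
    simp [hP]
  have hp : ∀ p ∈ P, (∑ h ∈ shg C K X,
      if Relation.ReflTransGen (Step C K X) p.1 h then 1 else 0) ≤ r := by
    intro p hp
    rw [← card_filter]
    have hb : C.Big K p.1 := (mem_filter.1 hp).2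
    by_cases hX : p.1 ∈ X
    · have h0 : (shg C K X).filter (fun h => Relation.ReflTransGen (Step C K X) p.1 h) = ∅ := by
        rw [filter_eq_empty_iff]
        intro h hh hR
        rcases Relation.ReflTransGen.cases_head hR with heq | ⟨c, hc, -⟩
        · rw [← heq] at hh
          exact (hmem _ hh).2.1 hX
        · exact hc.2.2.1 hX
      rw [h0, card_empty]
      exact Nat.zero_le _
    · refine le_trans (le_of_eq ?_) (hr p.1 hb hX)
      unfold reach
      congr 1
  refine (Finset.sum_le_sum hp).trans ?_
  rw [Finset.sum_const, smul_eq_mul, hPc, mul_comm]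

/-- In circuits of sharing depth one at most one shared gate is reached from every gate. -/
theorem reach_one (h1 : C.SharingDepthLE K X 1) (g : C.Gate) : (reach C K X g).card ≤ 1 := by
  classical
  refine card_le_one.2 ?_
  intro h hh h' hh'
  obtain ⟨m1, r1⟩ := mem_filter.1 hh
  obtain ⟨m2, r2⟩ := mem_filter.1 hh'
  have m1 := (mem_filter.1 m1).2
  have m2 := (mem_filter.1 m2).2
  by_contra hne
  exact one_uniq C K X h1 m1.1 m2.1 m1.2.1 m2.2.1 m1.2.2 m2.2.2 hne r1 r2

end Pool.Agent.Lib_MP_22d2c8_oa
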