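import Pool.Agent.Lib_MP_22d2c8_oa.Bound
import Pool.Agent.Lib_MP_22d2c8_oa.Avg
import Pool.Agent.Lib_MP_22d2c8_oa.Aver

/-!
# The output gate is big

A function of `t` and of few of the bits of `x` and `y` agrees with the hard function only by chance.
-/

set_option linter.unusedSectionVars false

namespace Pool.Agent.Lib_MP_22d2c8_oa

open Finset Pool.Agent.Lib_MP_22d2c8_sym Pool.Agent.Lib_MP_22d2c8_ol

theorem exists_disj {n p L K : ℕ} [hp : Fact p.Prime] (D : Finset (Fin n ⊕ Fin n))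
    (hD : D.card ≤ K) (hK : (K + 1) * L ≤ p) (hL : 1 ≤ L) :
    ∃ v v' : ZMod p, D ∩ gS n p L v v' = ∅ := by
  classical
  by_contra hcon
  push Not at hcon
  have h1 := aver_set p L D
  have h2 : ∀ v v' : ZMod p, (if (D ∩ gS n p L v v').Nonempty then 1 else 0) = 1 := by
    intro v v'
    rw [if_pos (hcon v v')]
  have hc : Fintype.card (ZMod p) = p := ZMod.card p
  have h3 : ∑ v : ZMod p, ∑ v' : ZMod p, (if (D ∩ gS n p L v v').Nonempty then 1 else 0) = p * p := by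
    rw [sum_congr rfl fun v _ => sum_congr rfl fun v' _ => h2 v v']
    simp only [sum_const, card_univ, hc, smul_eq_mul, mul_one]
  rw [h3] at h1
  have h4 : D.card * (p * L) ≤ p * (K * L) := by
    calc D.card * (p * L) ≤ K * (p * L) := Nat.mul_le_mul_right _ hD
      _ = p * (K * L) := by ring
  have h5 : p ≤ K * L := Nat.le_of_mul_le_mul_left (h1.trans h4) hp.out.pos
  have h6 : (K + 1) * L = K * L + L := by ring
  omega

theorem out_big {n p : ℕ} [hp : Fact p.Prime] (hn : 2 * p * p ≤ n) (C : Circuit (Inp n)) (K k : ℕ)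
    (hagr : 2 * ((2 : ℝ) ^ (2 * n - 1) * 2 ^ (2 * n)) / 2 ^ k ≤
      ∑ x, sgn (C.val x C.out) * sgn (hank x))
    (h2p : p ≠ 2) (L : ℕ) (hL1 : 1 ≤ L) (hL2 : 2 * L ≤ p) (hK : (K + 1) * L ≤ p)
    (hk : k + 1 ≤ p * L / 16) : C.Big K C.out := by
  classical
  intro hs
  obtain ⟨v, v', hvv⟩ := exists_disj (sset C K C.out) (sset_spec hs).1 hK hL1
  set A := Lib_MP_22d2c8_ol.gA n p L v with hA
  set B := Lib_MP_22d2c8_ol.gB n p L v' with hB
  obtain ⟨α, hα⟩ := exists_alpha A B (fun x => sgn (C.val x C.out)) _ hagr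
  set ρ := p * L / 16 with hρ
  have hρn : ρ ≤ n := by
    have h1 : p * L ≤ p * p := Nat.mul_le_mul_left _ (by omega)
    have h2 : 2 * p * p = 2 * (p * p) := by ring
    omega
  have hρe : ρ ≤ p * p / 8 := by
    have h1 : p * L ≤ p * p := Nat.mul_le_mul_left _ (by omega)
    omega
  have hκ : ∀ t, t ∉ lows A B ρ → kap A B t ≤ 2 ^ (n - ρ) := by
    intro t ht
    have h1 : ¬ (2 ^ n < 2 ^ ρ * kap A B t) := fun h =>
      ht (mem_filter.2 ⟨mem_univ _, h⟩)
    have h2 : 2 ^ n = 2 ^ ρ * 2 ^ (n - ρ) := by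
      rw [← pow_add]
      congr 1
      omega
    rw [h2] at h1
    exact Nat.le_of_mul_le_mul_left (Nat.le_of_not_lt h1) (by positivity)
  have h4 := lows_grid h2p hn hL1 hL2 v v'
  have h4' : (2 : ℝ) ^ (p * p / 8) * (lows A B ρ).card ≤ 2 ^ (2 * n - 1) := by
    exact_mod_cast h4
  set α' : Fin n → Bool := fun i => α (Sum.inl i) with hα'
  set β' : Fin n → Bool := fun i => α (Sum.inr i) with hβ'
  have hαe : α = Sum.elim α' β' := by
    funext w
    rcases w with w | w <;> rfl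
  have hval : ∀ (t : Fin (2 * n - 1) → Bool) (s : Fin n ⊕ Fin n → Bool),
      C.val (inpt (A.disjSum B) α t s) C.out =
        C.val (inpt (A.disjSum B) α t fun _ => false) C.out := by
    intro t s
    refine val_inpt hs t s _ fun w hw hwS => ?_
    have h5 : w ∈ sset C K C.out ∩ gS n p L v v' := mem_inter.2 ⟨hw, hwS⟩
    rw [hvv] at h5
    exact absurd h5 (notMem_empty _)
  have hcor : cor A B α (fun x => sgn (C.val x C.out)) ≤
      ∑ t : Fin (2 * n - 1) → Bool, 2 ^ n * (kap A B t : ℝ) := by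
    unfold cor
    refine sum_le_sum fun t _ => ?_
    have h5 : ∑ q : (Fin n → Bool) × (Fin n → Bool),
        sgn (C.val (inpt (A.disjSum B) α t (Sum.elim q.1 q.2)) C.out) *
          sgn (hank (inpt (A.disjSum B) α t (Sum.elim q.1 q.2))) =
        sgn (C.val (inpt (A.disjSum B) α t fun _ => false) C.out) *
          ∑ q, chi (fm A B α' β' t q) := by
      rw [mul_sum]
      refine sum_congr rfl fun q _ => ?_
      rw [hval, hαe, hank_mix, sgn_decide]
    rw [h5]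
    refine (le_abs_self _).trans ?_
    rw [abs_mul, abs_sgn, one_mul]
    exact sum_chi_le A B α' β' t
  have hk2 : ∀ t : Fin (2 * n - 1) → Bool, (kap A B t : ℝ) ≤
      2 ^ (n - ρ) + if t ∈ lows A B ρ then (2 : ℝ) ^ n else 0 := by
    intro t
    by_cases h : t ∈ lows A B ρ
    · rw [if_pos h]
      have h2 : (kap A B t : ℝ) ≤ 2 ^ n := by exact_mod_cast kap_le A B t
      have h3 : (0 : ℝ) ≤ 2 ^ (n - ρ) := by positivity
      linarith
    · rw [if_neg h, add_zero]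
      exact_mod_cast hκ t h
  have hsum : ∑ t : Fin (2 * n - 1) → Bool, 2 ^ n * (kap A B t : ℝ) ≤
      2 ^ n * (2 ^ (2 * n - 1) * 2 ^ (n - ρ) + 2 ^ n * (lows A B ρ).card) := by
    rw [← mul_sum]
    refine mul_le_mul_of_nonneg_left ?_ (by positivity)
    refine (sum_le_sum fun t _ => hk2 t).trans ?_
    rw [sum_add_distrib, sum_const, nsmul_eq_mul, card_fun_bool, ← sum_filter, sum_const,
      nsmul_eq_mul]
    have h6 : (univ.filter fun t => t ∈ lows A B ρ).card = (lows A B ρ).card := by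
      congr 1
      ext t
      simp
    rw [h6]
    push_cast
    linarith
  set M : ℝ := 2 ^ (2 * n - 1) * 2 ^ (2 * n) with hM
  set Lw : ℝ := ((lows A B ρ).card : ℝ) with hLw
  have hLw0 : 0 ≤ Lw := Nat.cast_nonneg _
  have e2 : (2 : ℝ) ^ n * 2 ^ n = 2 ^ (2 * n) := by rw [← pow_add, two_mul]
  have e3 : (2 : ℝ) ^ (n - ρ) * 2 ^ ρ = 2 ^ n := by
    rw [← pow_add]
    congr 1
    omega
  have e4 : (2 : ℝ) ^ ρ * Lw ≤ 2 ^ (2 * n - 1) := by
    refine le_trans ?_ h4'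
    exact mul_le_mul_of_nonneg_right (pow_le_pow_right₀ (by norm_num) hρe) hLw0
  have h7 : (2 : ℝ) ^ ρ * (2 ^ n * (2 ^ (2 * n - 1) * 2 ^ (n - ρ) + 2 ^ n * Lw)) ≤ 2 * M := by
    calc (2 : ℝ) ^ ρ * (2 ^ n * (2 ^ (2 * n - 1) * 2 ^ (n - ρ) + 2 ^ n * Lw))
        = 2 ^ n * (2 ^ (n - ρ) * 2 ^ ρ) * 2 ^ (2 * n - 1) + (2 ^ n * 2 ^ n) * (2 ^ ρ * Lw) := by
          ring
      _ ≤ 2 ^ n * (2 ^ (n - ρ) * 2 ^ ρ) * 2 ^ (2 * n - 1) + (2 ^ n * 2 ^ n) * 2 ^ (2 * n - 1) := by
          have := mul_le_mul_of_nonneg_left e4 (by positivity : (0 : ℝ) ≤ 2 ^ n * 2 ^ n)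
          linarith
      _ = 2 * M := by
          rw [e3, e2, hM]
          ring
  have h8 : (2 : ℝ) ^ ρ * (2 * M / 2 ^ k) ≤ 2 * M := by
    refine le_trans (mul_le_mul_of_nonneg_left ?_ (by positivity)) h7
    exact hα.trans (hcor.trans hsum)
  have h9 : (2 : ℝ) ^ ρ * (2 * M / 2 ^ k) = 2 * M * (2 ^ ρ / 2 ^ k) := by ring
  have h10 : (2 : ℝ) ≤ 2 ^ ρ / 2 ^ k := by
    rw [le_div_iff₀ (by positivity), ← pow_succ']
    exact pow_le_pow_right₀ (by norm_num) hk
  have hM0 : 0 < M := by positivity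
  rw [h9] at h8
  nlinarith

end Pool.Agent.Lib_MP_22d2c8_oa
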