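import Pool.Agent.Lib_MP_22d2c8_oa.Model

/-!
# Symmetric gates, threshold gates and gates of few arguments have few subfunctions
-/

namespace Pool.Agent.Lib_MP_22d2c8_oa

open Finset Pool.Agent.Lib_MP_22d2c8_sym

/-- Few subfunctions. -/
theorem SubLE.subPow {w a : ℕ} {f : (Fin a → Bool) → Bool} (hf : SubLE w f) : SubPow w f := by
  intro I
  refine (hf I).trans ?_
  exact Nat.le_self_pow (by omega) w

/-- Functions of few arguments. -/
theorem subPow_arity {a : ℕ} (f : (Fin a → Bool) → Bool) : SubPow (2 ^ a) f := by
  apply SubLE.subPow
  intro I
  refine card_image_le.trans (le_of_eq ?_)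
  rw [card_univ, Fintype.card_fun, Fintype.card_bool, Fintype.card_fin]

/-- A symmetric function has at most `2 ^ (j + 1)` subfunctions on `j` arguments. -/
theorem subPow_symm {a : ℕ} {f : (Fin a → Bool) → Bool} (hf : Symm f) : SubPow 2 f := by
  classical
  intro I
  set J : Finset (Fin a) := Iᶜ with hJ
  have hJc : J.card = a - I.card := by
    rw [hJ, card_compl, Fintype.card_fin]
  -- a subfunction is determined by its values at inputs with `0, …, J.card` ones in `J`
  have hstep : ∀ k : ℕ, k ≤ J.card → ∃ T : Finset (Fin a), T ⊆ J ∧ T.card = k :=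
    fun k hk => Finset.exists_subset_card_eq hk
  choose! T hT1 hT2 using hstep
  have hcount : ∀ (u z : Fin a → Bool), (univ.filter fun i => (if i ∈ I then u i else z i) = true).card =
      (I.filter fun i => u i = true).card + (J.filter fun i => z i = true).card := by
    intro u z
    rw [← Finset.card_union_of_disjoint]
    · congr 1
      ext i
      simp only [Finset.mem_filter, Finset.mem_univ, true_and, Finset.mem_union, hJ,
        Finset.mem_compl]
      by_cases hi : i ∈ I <;> simp [hi]
    · rw [Finset.disjoint_left]
      intro i hi hi'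
      simp only [Finset.mem_filter, hJ, Finset.mem_compl] at hi hi'
      exact hi'.1 hi.1
  have hfilter : ∀ k, k ≤ J.card → (J.filter fun i => decide (i ∈ T k) = true) = T k := by
    intro k hk
    ext i
    simp only [mem_filter, decide_eq_true_eq]
    exact ⟨fun h => h.2, fun h => ⟨hT1 k hk h, h⟩⟩
  have h1 : (univ.image (sub f I)).card ≤ Fintype.card (Fin (J.card + 1) → Bool) := by
    rw [← Finset.card_univ]
    refine card_le_card_of_injOn
      (fun (g : (Fin a → Bool) → Bool) (k : Fin (J.card + 1)) => g fun i => decide (i ∈ T k))
      (fun _ _ => mem_coe.2 (mem_univ _)) ?_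
    intro g hg g' hg' h
    obtain ⟨u, -, rfl⟩ := mem_image.1 (mem_coe.1 hg)
    obtain ⟨u', -, rfl⟩ := mem_image.1 (mem_coe.1 hg')
    funext z
    set k := (J.filter fun i => z i = true).card with hk
    have hkJ : k ≤ J.card := card_le_card (filter_subset _ _)
    have h2 := congrFun h ⟨k, by omega⟩
    simp only at h2
    have h3 : ∀ v : Fin a → Bool, sub f I v z = sub f I v fun i => decide (i ∈ T k) := by
      intro v
      unfold sub
      apply hf
      rw [hcount, hcount, hfilter k hkJ, hT2 k hkJ, ← hk]
    rw [h3 u, h3 u', h2]
  rw [Fintype.card_fun, Fintype.card_bool, Fintype.card_fin, hJc] at h1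
  exact h1

/-- A threshold function has at most `2 ^ j + 1` subfunctions on `j` arguments. -/
theorem subPow_threshold {a : ℕ} {f : (Fin a → Bool) → Bool} (hf : Threshold f) : SubPow 2 f := by
  classical
  intro I
  obtain ⟨c, θ, hc⟩ := hf
  set J : Finset (Fin a) := Iᶜ with hJ
  have hJc : J.card = a - I.card := by
    rw [hJ, card_compl, Fintype.card_fin]
  have hsub : ∀ u z, sub f I u z = true ↔
      θ - (∑ i ∈ I, if u i = true then c i else 0) ≤ ∑ i ∈ J, if z i = true then c i else 0 := by
    intro u z
    unfold sub
    rw [hc]
    have h1 : (∑ i, if (if i ∈ I then u i else z i) = true then c i else 0) =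
        (∑ i ∈ I, if u i = true then c i else 0) + ∑ i ∈ J, if z i = true then c i else 0 := by
      rw [hJ, ← sum_add_sum_compl I]
      congr 1
      · refine sum_congr rfl fun i hi => ?_
        rw [if_pos hi]
      · refine sum_congr rfl fun i hi => ?_
        rw [if_neg (mem_compl.1 hi)]
    rw [h1]
    constructor <;> intro h <;> linarith
  -- the inputs supported on `J`
  set P : Finset (Fin a → Bool) := univ.filter fun z => ∀ i ∈ I, z i = false with hP
  have hPc : P.card ≤ 2 ^ J.card := by
    have h1 : P.card ≤ Fintype.card (J → Bool) := by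
      rw [← Finset.card_univ]
      refine card_le_card_of_injOn (fun z i => z i.1) (fun _ _ => mem_coe.2 (mem_univ _)) ?_
      intro z hz z' hz' h
      funext i
      by_cases hi : i ∈ I
      · rw [(mem_filter.1 hz).2 i hi, (mem_filter.1 hz').2 i hi]
      · exact congrFun h ⟨i, by rw [hJ]; exact mem_compl.2 hi⟩
    rwa [Fintype.card_fun, Fintype.card_bool, Fintype.card_coe] at h1
  have hext : ∀ u z, sub f I u z = sub f I u fun i => if i ∈ I then false else z i := by
    intro u z
    unfold sub
    congr 1
    funext i
    by_cases hi : i ∈ I
    · rw [if_pos hi, if_pos hi]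
    · rw [if_neg hi, if_neg hi]
      exact (if_neg hi).symm
  have h1 : (univ.image (sub f I)).card ≤ (range (2 ^ J.card + 1)).card := by
    refine card_le_card_of_injOn
      (fun g : (Fin a → Bool) → Bool => (P.filter fun z => g z = true).card) ?_ ?_
    · intro g _
      refine mem_coe.2 (mem_range.2 ?_)
      exact Nat.lt_succ_of_le ((card_le_card (filter_subset _ _)).trans hPc)
    · intro g hg g' hg' h
      obtain ⟨u, -, rfl⟩ := mem_image.1 (mem_coe.1 hg)
      obtain ⟨u', -, rfl⟩ := mem_image.1 (mem_coe.1 hg')
      simp only at h
      -- one of the two sets of ones contains the other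
      have key : ∀ u u' : Fin a → Bool,
          θ - (∑ i ∈ I, if u i = true then c i else 0) ≤
            θ - (∑ i ∈ I, if u' i = true then c i else 0) →
          (P.filter fun z => sub f I u z = true).card = (P.filter fun z => sub f I u' z = true).card →
          sub f I u = sub f I u' := by
        intro u u' hle hcard
        have hsubset : (P.filter fun z => sub f I u' z = true) ⊆
            (P.filter fun z => sub f I u z = true) := by
          intro z hz
          rw [mem_filter] at hz ⊢
          refine ⟨hz.1, ?_⟩
          rw [hsub]
          exact hle.trans ((hsub u' z).1 hz.2)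
        have heq := eq_of_subset_of_card_le hsubset hcard.le
        funext z
        rw [hext u z, hext u' z]
        set z' : Fin a → Bool := fun i => if i ∈ I then false else z i with hz'
        have hzP : z' ∈ P := mem_filter.2 ⟨mem_univ _, fun i hi => if_pos hi⟩
        have h3 : sub f I u' z' = true ↔ sub f I u z' = true := by
          constructor
          · intro h
            exact (mem_filter.1 (heq ▸ mem_filter.2 ⟨hzP, h⟩ :
              z' ∈ P.filter fun z => sub f I u z = true)).2
          · intro h
            exact (mem_filter.1 (heq.symm ▸ mem_filter.2 ⟨hzP, h⟩ :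
              z' ∈ P.filter fun z => sub f I u' z = true)).2
        exact Bool.eq_iff_iff.2 h3.symm
      rcases le_total (θ - (∑ i ∈ I, if u i = true then c i else 0))
        (θ - (∑ i ∈ I, if u' i = true then c i else 0)) with hle | hle
      · exact key u u' hle h
      · exact (key u' u hle h.symm).symm
  rw [card_range, hJc] at h1
  refine h1.trans ?_
  rw [pow_succ]
  have : 1 ≤ 2 ^ (a - I.card) := Nat.one_le_two_pow
  omega

end Pool.Agent.Lib_MP_22d2c8_oa
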