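import Mathlib

/-!
# Summation over the scales `2 ^ i` between `κ / p` and `p / a`
-/

namespace Pool.Agent.Lib_MP_22d2c8_oa

open Finset

private theorem Scales_two (x P : ℕ) (n : ℕ) :
    ∑ i ∈ range n, (if x * 2 ^ i ≤ P then (x : ℝ) * 2 ^ i else 0) ≤ 2 * P ∧
      ∑ i ∈ range n, (if x * 2 ^ i ≤ P then (x : ℝ) * 2 ^ i else 0) ≤ x * 2 ^ n := by
  induction n with
  | zero => simp
  | succ n ih =>
    obtain ⟨h1, h2⟩ := ih
    rw [Finset.sum_range_succ]
    have hx : (0 : ℝ) ≤ x * 2 ^ n := by positivity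
    have hp : (x : ℝ) * 2 ^ (n + 1) = x * 2 ^ n + x * 2 ^ n := by ring
    by_cases h : x * 2 ^ n ≤ P
    · have h' : (x : ℝ) * 2 ^ n ≤ P := by exact_mod_cast h
      rw [if_pos h, hp]
      constructor <;> linarith
    · rw [if_neg h, hp]
      constructor <;> linarith

private theorem Scales_three {x : ℝ} (hx : 0 ≤ x) (n : ℕ) :
    ∀ P : ℝ, 0 ≤ P →
      ∑ i ∈ range n, (if P < x * 2 ^ i then P / 2 ^ i else 0) ≤ 2 * P ∧
        ∑ i ∈ range n, (if P < x * 2 ^ i then P / 2 ^ i else 0) ≤ 2 * x := by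
  induction n with
  | zero =>
    intro P hP
    simp [hx, hP]
  | succ n ih =>
    intro P hP
    obtain ⟨h1, h2⟩ := ih (P / 2) (by positivity)
    have h3 : ∑ i ∈ range n, (if P < x * 2 ^ (i + 1) then P / 2 ^ (i + 1) else 0) =
        ∑ i ∈ range n, (if P / 2 < x * 2 ^ i then P / 2 / 2 ^ i else 0) := by
      refine Finset.sum_congr rfl fun i _ => ?_
      have e1 : P < x * 2 ^ (i + 1) ↔ P / 2 < x * 2 ^ i := by
        rw [pow_succ, div_lt_iff₀ (by norm_num : (0 : ℝ) < 2), mul_assoc]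
      have e2 : P / 2 ^ (i + 1) = P / 2 / 2 ^ i := by
        rw [pow_succ, div_div, mul_comm]
      rw [e2]
      exact if_congr e1 rfl rfl
    rw [Finset.sum_range_succ', h3]
    simp only [pow_zero, mul_one, div_one]
    by_cases h : P < x
    · rw [if_pos h]
      constructor <;> linarith
    · rw [if_neg h]
      constructor <;> linarith

/-- Summation over the scales. -/
theorem scales (a : ℕ) (ha : 1 ≤ a) (c : ℝ) (hc : 0 < c) (κ p : ℕ) (hκ : 1 ≤ κ)
    (hp : a ^ 2 + 1 ≤ p) (ι : Type) (H : Finset ι) (f b : ι → ℕ) (V : ℕ) (hV : ∑ h ∈ H, f h ≤ V)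
    (hyp : ∀ i : ℕ, κ ≤ p * 2 ^ i → a * 2 ^ i ≤ p → (p : ℝ) ^ 2 ≤ c * ((2 : ℝ) ^ i / p * V +
        ∑ h ∈ H, (if b h * 2 ^ i ≤ p then (f h : ℝ) * (b h * 2 ^ i / p) else 0) +
        ∑ h ∈ H, (if p < b h * 2 ^ i then (p : ℝ) / 2 ^ i else 0))) :
    (p : ℝ) ^ 2 * Real.log (p ^ 2 / (2 * a * κ)) ≤ 16 * c * (V + ∑ h ∈ H, (b h : ℝ)) := by
  have hap : a ≤ p := by nlinarith
  have hp0 : 0 < p := by omega
  have hpR : (0 : ℝ) < p := by exact_mod_cast hp0
  have haR : (0 : ℝ) < a := by exact_mod_cast ha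
  have hκR : (1 : ℝ) ≤ κ := by exact_mod_cast hκ
  set I := Nat.log 2 (p / a) + 1 with hI
  have hq : p / a ≠ 0 := (Nat.div_pos hap ha).ne'
  have hI1 : ∀ i ∈ range I, a * 2 ^ i ≤ p := by
    intro i hi
    have h1 : i ≤ Nat.log 2 (p / a) := by
      have := Finset.mem_range.mp hi
      omega
    have h2 : 2 ^ i ≤ p / a := Nat.pow_le_of_le_log hq h1
    rw [mul_comm]
    exact (Nat.le_div_iff_mul_le ha).mp h2
  have hI2 : p < a * 2 ^ I := by
    have h1 : p / a < 2 ^ I := Nat.lt_pow_succ_log_self (by norm_num) _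
    rw [mul_comm]
    exact (Nat.div_lt_iff_lt_mul ha).mp h1
  have hI3 : (2 : ℝ) ^ I ≤ 2 * p := by
    have h1 := hI1 (Nat.log 2 (p / a)) (Finset.mem_range.mpr (by omega))
    have h2 : 2 ^ Nat.log 2 (p / a) ≤ p :=
      (Nat.le_mul_of_pos_left _ ha).trans h1
    have h3 : 2 ^ I ≤ 2 * p := by
      rw [hI, pow_succ]
      omega
    exact_mod_cast h3
  set G := (range I).filter (fun i => κ ≤ p * 2 ^ i) with hG
  set G' := (range I).filter (fun i => ¬ κ ≤ p * 2 ^ i) with hG'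
  have hGG : G.card + G'.card = I := by
    rw [hG, hG', card_filter_add_card_filter_not, card_range]
  -- the logarithm
  have hlog2 : (0 : ℝ) < Real.log 2 := Real.log_pos (by norm_num)
  have hlog1 : Real.log 2 ≤ 1 := by
    have := Real.log_two_lt_d9
    linarith
  have hIlog : Real.log p - Real.log a ≤ I * Real.log 2 := by
    have h1 : (p : ℝ) < a * 2 ^ I := by exact_mod_cast hI2
    have h2 : Real.log p ≤ Real.log a + I * Real.log 2 := by
      rw [← Real.log_pow, ← Real.log_mul haR.ne' (by positivity)]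
      exact Real.log_le_log hpR h1.le
    linarith
  have h2a : 2 * Real.log a ≤ Real.log p := by
    have h4 : (a : ℝ) ^ 2 ≤ p := by
      have : a ^ 2 ≤ p := by omega
      exact_mod_cast this
    have h5 := Real.log_le_log (by positivity) h4
    rw [Real.log_pow] at h5
    exact_mod_cast h5
  have hsplit : Real.log ((p : ℝ) ^ 2 / (2 * a * κ)) =
      2 * Real.log p - (Real.log 2 + Real.log a + Real.log κ) := by
    rw [Real.log_div (by positivity) (by positivity), Real.log_pow,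
      Real.log_mul (by positivity) (by positivity), Real.log_mul (by norm_num) haR.ne']
    norm_num
  have hloga : 0 ≤ Real.log a := Real.log_nonneg (by exact_mod_cast ha)
  have hlogκ : 0 ≤ Real.log κ := Real.log_nonneg hκR
  have hGnn : (0 : ℝ) ≤ G.card := Nat.cast_nonneg _
  have hGG' : (G.card : ℝ) + G'.card = I := by exact_mod_cast hGG
  have hlog : Real.log ((p : ℝ) ^ 2 / (2 * a * κ)) ≤ 4 * G.card := by
    rcases Nat.eq_zero_or_pos G'.card with h0 | h0
    · have h1 : (G.card : ℝ) = I := by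
        rw [← hGG', h0]
        norm_num
      rw [hsplit, h1]
      have h3 : (I : ℝ) * Real.log 2 ≤ I * 1 := mul_le_mul_of_nonneg_left hlog1 (Nat.cast_nonneg _)
      linarith
    · have hex : ∃ i ∈ G', G'.card - 1 ≤ i := by
        by_contra hc
        push Not at hc
        have h1 : G' ⊆ range (G'.card - 1) := fun i hi => mem_range.2 (hc i hi)
        have h2 := card_le_card h1
        rw [card_range] at h2
        omega
      obtain ⟨i, hi, hi2⟩ := hex
      have h1 : p * 2 ^ i < κ := Nat.lt_of_not_le (mem_filter.1 hi).2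
      have h2 : p * 2 ^ G'.card ≤ 2 * κ := by
        have h3 : 2 ^ (G'.card - 1) ≤ 2 ^ i := Nat.pow_le_pow_right (by norm_num) hi2
        have h4 : 2 ^ G'.card = 2 * 2 ^ (G'.card - 1) := by
          rw [← pow_succ']
          congr 1
          omega
        have h5 : p * 2 ^ (G'.card - 1) ≤ p * 2 ^ i := Nat.mul_le_mul_left _ h3
        have h6 : p * 2 ^ G'.card = 2 * (p * 2 ^ (G'.card - 1)) := by
          rw [h4]
          ring
        omega
      have h3 : (p : ℝ) * 2 ^ G'.card ≤ 2 * κ := by exact_mod_cast h2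
      have h4 : Real.log p + G'.card * Real.log 2 ≤ Real.log 2 + Real.log κ := by
        rw [← Real.log_pow, ← Real.log_mul hpR.ne' (by positivity),
          ← Real.log_mul (by norm_num) (by positivity)]
        exact Real.log_le_log (by positivity) h3
      have h5 : ((p : ℝ) ^ 2 / (2 * a * κ)).log ≤ G.card * Real.log 2 := by
        rw [hsplit]
        have h6 : (G.card : ℝ) * Real.log 2 + G'.card * Real.log 2 = I * Real.log 2 := by
          rw [← add_mul, hGG']
        linarith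
      have h6 : (G.card : ℝ) * Real.log 2 ≤ G.card * 1 := mul_le_mul_of_nonneg_left hlog1 hGnn
      linarith
  -- the sum over the scales
  have hsum := Finset.sum_le_sum fun i (hi : i ∈ G) =>
    hyp i (mem_filter.1 hi).2 (hI1 i (mem_filter.1 hi).1)
  rw [Finset.sum_const, nsmul_eq_mul, ← Finset.mul_sum,
    Finset.sum_add_distrib, Finset.sum_add_distrib] at hsum
  have hGs : G ⊆ range I := filter_subset _ _
  have hA0 : ∑ i ∈ G, (2 : ℝ) ^ i / p * V ≤ ∑ i ∈ range I, (2 : ℝ) ^ i / p * V :=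
    sum_le_sum_of_subset_of_nonneg hGs fun i _ _ => by positivity
  have hB0 : ∑ i ∈ G, ∑ h ∈ H,
      (if b h * 2 ^ i ≤ p then (f h : ℝ) * (b h * 2 ^ i / p) else 0) ≤ ∑ i ∈ range I, ∑ h ∈ H,
      (if b h * 2 ^ i ≤ p then (f h : ℝ) * (b h * 2 ^ i / p) else 0) :=
    sum_le_sum_of_subset_of_nonneg hGs fun i _ _ => sum_nonneg fun h _ => by
      split
      · positivity
      · exact le_refl _
  have hC0 : ∑ i ∈ G, ∑ h ∈ H, (if p < b h * 2 ^ i then (p : ℝ) / 2 ^ i else 0) ≤
      ∑ i ∈ range I, ∑ h ∈ H, (if p < b h * 2 ^ i then (p : ℝ) / 2 ^ i else 0) :=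
    sum_le_sum_of_subset_of_nonneg hGs fun i _ _ => sum_nonneg fun h _ => by
      split
      · positivity
      · exact le_refl _
  have hA : ∑ i ∈ range I, (2 : ℝ) ^ i / p * V ≤ 2 * V := by
    rw [← Finset.sum_mul, ← Finset.sum_div]
    refine mul_le_mul_of_nonneg_right ?_ (Nat.cast_nonneg _)
    rw [div_le_iff₀ hpR]
    have h1 : ∑ i ∈ range I, (2 : ℝ) ^ i = 2 ^ I - 1 := by
      have := geom_sum_eq (by norm_num : (2 : ℝ) ≠ 1) I
      rw [this]
      norm_num
    rw [h1]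
    linarith
  have hB : ∑ i ∈ range I, ∑ h ∈ H,
      (if b h * 2 ^ i ≤ p then (f h : ℝ) * (b h * 2 ^ i / p) else 0) ≤ 2 * V := by
    rw [Finset.sum_comm]
    have h1 : ∀ h ∈ H, ∑ i ∈ range I,
        (if b h * 2 ^ i ≤ p then (f h : ℝ) * (b h * 2 ^ i / p) else 0) ≤ 2 * (f h : ℝ) := by
      intro h _
      have h2 : ∑ i ∈ range I,
          (if b h * 2 ^ i ≤ p then (f h : ℝ) * (b h * 2 ^ i / p) else 0) =
          f h * ((∑ i ∈ range I, (if b h * 2 ^ i ≤ p then (b h : ℝ) * 2 ^ i else 0)) / p) := by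
        rw [Finset.sum_div, Finset.mul_sum]
        refine Finset.sum_congr rfl fun i _ => ?_
        split_ifs <;> simp
      rw [h2, mul_comm (2 : ℝ)]
      refine mul_le_mul_of_nonneg_left ?_ (Nat.cast_nonneg _)
      rw [div_le_iff₀ hpR]
      exact (Scales_two (b h) p I).1
    refine (Finset.sum_le_sum h1).trans ?_
    rw [← Finset.mul_sum]
    have h3 : (∑ h ∈ H, (f h : ℝ)) ≤ V := by exact_mod_cast hV
    linarith
  have hC : ∑ i ∈ range I, ∑ h ∈ H, (if p < b h * 2 ^ i then (p : ℝ) / 2 ^ i else 0) ≤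
      2 * ∑ h ∈ H, (b h : ℝ) := by
    rw [Finset.sum_comm, Finset.mul_sum]
    refine Finset.sum_le_sum fun h _ => ?_
    have h2 : ∑ i ∈ range I, (if p < b h * 2 ^ i then (p : ℝ) / 2 ^ i else 0) =
        ∑ i ∈ range I, (if (p : ℝ) < b h * 2 ^ i then (p : ℝ) / 2 ^ i else 0) := by
      refine Finset.sum_congr rfl fun i _ => ?_
      refine if_congr ?_ rfl rfl
      exact_mod_cast Iff.rfl
    rw [h2]
    exact (Scales_three (Nat.cast_nonneg (b h)) I p hpR.le).2
  have hb : 0 ≤ ∑ h ∈ H, (b h : ℝ) := Finset.sum_nonneg fun h _ => Nat.cast_nonneg _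
  have htot : (G.card : ℝ) * (p : ℝ) ^ 2 ≤ c * (4 * (V + ∑ h ∈ H, (b h : ℝ))) := by
    refine hsum.trans (mul_le_mul_of_nonneg_left ?_ hc.le)
    linarith
  calc (p : ℝ) ^ 2 * Real.log (p ^ 2 / (2 * a * κ)) ≤ (p : ℝ) ^ 2 * (4 * G.card) :=
        mul_le_mul_of_nonneg_left hlog (by positivity)
    _ = 4 * (G.card * (p : ℝ) ^ 2) := by ring
    _ ≤ 4 * (c * (4 * (V + ∑ h ∈ H, (b h : ℝ)))) := by linarith
    _ = 16 * c * (V + ∑ h ∈ H, (b h : ℝ)) := by ring

end Pool.Agent.Lib_MP_22d2c8_oa
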