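import Pool.Agent.Lib_MP_22d2c8_oa.Step
import Pool.Agent.Lib_MP_22d2c8_oa.OutBig
import Pool.Agent.Lib_MP_22d2c8_oa.Scales
import Pool.Agent.Lib_MP_22d2c8_oa.One
import Pool.Agent.Lib_MP_22d2c8_oa.Pow

/-!
# The lower bound `n log (n / k)`
-/

set_option linter.unusedSectionVars false

namespace Pool.Agent.Lib_MP_22d2c8_oa

open Finset Pool.Agent.Lib_MP_22d2c8_sym Pool.Agent.Lib_MP_22d2c8_ol

theorem subPow_mono {w w' a : ℕ} {f : (Fin a → Bool) → Bool} (h : w ≤ w') (hf : SubPow w f) :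
    SubPow w' f := fun I => (hf I).trans (Nat.pow_le_pow_left h _)

/-- The circuit agrees with the hard function on at least a fraction `1 / 2 + 2 ^ (-k)` of the
inputs. -/
def Agrees {n : ℕ} (C : Circuit (Inp n)) (k : ℕ) : Prop :=
  (1 / 2 + 1 / 2 ^ k) * 2 ^ (4 * n - 1) ≤ (agree C : ℝ)

theorem agrees_cor {n k : ℕ} (hn : 1 ≤ n) (C : Circuit (Inp n)) (h : Agrees C k) :
    2 * ((2 : ℝ) ^ (2 * n - 1) * 2 ^ (2 * n)) / 2 ^ k ≤
      ∑ x, sgn (C.val x C.out) * sgn (hank x) := by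
  unfold Agrees at h
  have h0 : ∑ x, sgn (C.val x C.out) * sgn (hank x) = 2 * (agree C : ℝ) - 2 ^ (4 * n - 1) :=
    sum_agree hn C
  rw [h0]
  have e1 : (2 : ℝ) ^ (2 * n - 1) * 2 ^ (2 * n) = 2 ^ (4 * n - 1) := by
    rw [← pow_add]
    congr 1
    omega
  rw [e1]
  have e2 : 2 * (2 : ℝ) ^ (4 * n - 1) / 2 ^ k = 2 * ((1 / 2 + 1 / 2 ^ k) * 2 ^ (4 * n - 1)) -
      2 ^ (4 * n - 1) := by ring
  rw [e2]
  linarith

/-- The number of wires plus the number of variables below shared gates. -/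
theorem main_bound (K w : ℕ) : ∃ q : ℕ, 0 < q ∧ ∀ n k : ℕ, 1 ≤ k → ∀ C : Circuit (Inp n),
    (∀ g, C.Big K g → SubPow w (C.op g)) → ∀ X : Finset C.Gate, X.card ≤ k → Agrees C k →
      (n : ℝ) * Real.log (n / (q * k)) ≤
        q * (max K 1 * C.wires K + ∑ h ∈ shg C K X, ((bel C K X h).card : ℝ)) := by
  obtain ⟨a, ha⟩ : ∃ a, a = 2 * (2 + w) * (K + 2) := ⟨_, rfl⟩
  have ha1 : 1 ≤ a := by
    rw [ha]
    have : 0 < 2 * (2 + w) * (K + 2) := by positivity
    omega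
  obtain ⟨c, hc⟩ : ∃ c, c = 64 + 16 * (3 * w + 2 * 2 ^ max K 1) := ⟨_, rfl⟩
  obtain ⟨P1, hP1⟩ : ∃ P1, P1 = a ^ 2 + 1 + 32 * (2 + 2 * w + 2 ^ max K 1) := ⟨_, rfl⟩
  obtain ⟨q, hq⟩ : ∃ q, q = 8 * (P1 + 1) ^ 2 + 2560 * a + 128 * c := ⟨_, rfl⟩
  have hq0 : 0 < q := by
    rw [hq]
    positivity
  refine ⟨q, hq0, ?_⟩
  intro n k hk C hop X hX hagr
  have hqR : (0 : ℝ) < q := by exact_mod_cast hq0
  have hkR : (1 : ℝ) ≤ k := by exact_mod_cast hk
  have hrhs : (0 : ℝ) ≤ max K 1 * C.wires K + ∑ h ∈ shg C K X, ((bel C K X h).card : ℝ) := by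
    positivity
  rcases Nat.lt_or_ge (q * k) n with hnq | hnq
  swap
  · -- trivial case
    have h1 : Real.log (n / (q * k)) ≤ 0 := by
      refine Real.log_nonpos (by positivity) ?_
      rw [div_le_one (by positivity)]
      exact_mod_cast hnq
    have h2 : (n : ℝ) * Real.log (n / (q * k)) ≤ 0 :=
      mul_nonpos_of_nonneg_of_nonpos (Nat.cast_nonneg _) h1
    exact h2.trans (mul_nonneg hqR.le hrhs)
  have hqn : q < n := lt_of_le_of_lt (Nat.le_mul_of_pos_right _ hk) hnq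
  have hn8 : 8 * (P1 + 1) ^ 2 ≤ n := by omega
  have hn1 : 1 ≤ n := by omega
  obtain ⟨m, hm⟩ : ∃ m, m = Nat.sqrt (n / 8) := ⟨_, rfl⟩
  have hm1 : P1 + 1 ≤ m := by
    rw [hm, Nat.le_sqrt']
    omega
  obtain ⟨p, hpp, hmp, hp2⟩ := Nat.exists_prime_lt_and_le_two_mul m (by omega)
  have : Fact p.Prime := ⟨hpp⟩
  have hm2 : m ^ 2 ≤ n / 8 := by
    rw [hm]
    exact Nat.sqrt_le' _
  have hm3 : n / 8 < (m + 1) ^ 2 := by
    rw [hm]
    exact Nat.lt_succ_sqrt' _
  have hnp : 2 * p * p ≤ n := by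
    have h1 : 2 * p * p ≤ 8 * m ^ 2 := by nlinarith
    omega
  have hnp2 : n < 8 * p ^ 2 := by
    have h1 : (m + 1) ^ 2 ≤ p ^ 2 := Nat.pow_le_pow_left hmp 2
    omega
  have hPp : a ^ 2 + 1 ≤ p := by omega
  have hPp2 : 32 * (2 + 2 * w + 2 ^ max K 1) ≤ p := by omega
  have h2p : p ≠ 2 := by
    have h3 : 1 ≤ 2 ^ max K 1 := Nat.one_le_two_pow
    omega
  have hop2 : ∀ g, C.Big K g → SubPow (2 ^ w) (C.op g) := fun g hg =>
    subPow_mono Nat.lt_two_pow_self.le (hop g hg)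
  have hcor := agrees_cor hn1 C hagr
  have hc0 : (0 : ℝ) < (c : ℝ) := by
    rw [hc]
    positivity
  have h1 := scales a ha1 (c : ℝ) hc0 (160 * k) p (by omega) hPp C.Gate (shg C K X) (fo C K)
    (fun h => (bel C K X h).card) (max K 1 * C.wires K)
    ((sum_fo C K X).trans (Nat.le_mul_of_pos_left _ (by omega)))
    (fun i hi1 hi2 => by
      have hpos : 0 < 2 ^ i := by positivity
      have h4 : (K + 1) * 2 ^ i ≤ p := by
        refine le_trans (Nat.mul_le_mul_right _ ?_) hi2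
        rw [ha]
        nlinarith
      have h5 : 2 * (2 + w) * 2 ^ i ≤ p := by
        refine le_trans (Nat.mul_le_mul_right _ ?_) hi2
        rw [ha]
        exact Nat.le_mul_of_pos_right _ (by omega)
      have h6 : 2 * 2 ^ i ≤ p := by
        refine le_trans ?_ h5
        refine Nat.mul_le_mul_right _ ?_
        omega
      have h7 : k + 1 ≤ p * 2 ^ i / 16 := by omega
      have hout := out_big hnp C K k hcor h2p (2 ^ i) hpos h6 h4 h7
      have h8 := step hnp C K w k hk hop2 hcor hout X hX hPp2 i hi1 h5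
      refine h8.trans (le_of_eq ?_)
      rw [hc]
      push_cast
      ring)
  have hnR : (0 : ℝ) < n := by exact_mod_cast hn1
  have hpR : (0 : ℝ) < p := by exact_mod_cast hpp.pos
  have haR : (0 : ℝ) < a := by exact_mod_cast ha1
  have hnpR : (n : ℝ) ≤ 8 * (p : ℝ) ^ 2 := by exact_mod_cast hnp2.le
  have hlog : Real.log (n / (q * k)) ≤ Real.log ((p : ℝ) ^ 2 / (2 * a * ((160 * k : ℕ) : ℝ))) := by
    refine Real.log_le_log (by positivity) ?_
    rw [div_le_div_iff₀ (by positivity) (by positivity)]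
    have h2 : (2560 * a : ℝ) ≤ q := by
      have : 2560 * a ≤ q := by omega
      exact_mod_cast this
    push_cast
    calc (n : ℝ) * (2 * a * (160 * k)) ≤ 8 * (p : ℝ) ^ 2 * (2 * a * (160 * k)) :=
          mul_le_mul_of_nonneg_right hnpR (by positivity)
      _ = (p : ℝ) ^ 2 * ((2560 * a) * k) := by ring
      _ ≤ (p : ℝ) ^ 2 * (q * k) := by
          refine mul_le_mul_of_nonneg_left ?_ (by positivity)
          exact mul_le_mul_of_nonneg_right h2 (by positivity)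
  have hlog0 : 0 ≤ Real.log (n / (q * k)) := by
    refine Real.log_nonneg ?_
    rw [le_div_iff₀ (by positivity), one_mul]
    exact_mod_cast hnq.le
  have h128 : (128 * c : ℝ) ≤ q := by
    have : 128 * c ≤ q := by omega
    exact_mod_cast this
  calc (n : ℝ) * Real.log (n / (q * k)) ≤ 8 * (p : ℝ) ^ 2 *
        Real.log ((p : ℝ) ^ 2 / (2 * a * ((160 * k : ℕ) : ℝ))) :=
        mul_le_mul hnpR hlog hlog0 (by positivity)
    _ = 8 * ((p : ℝ) ^ 2 * Real.log ((p : ℝ) ^ 2 / (2 * a * ((160 * k : ℕ) : ℝ)))) := by ring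
    _ ≤ 8 * (16 * c * (((max K 1 * C.wires K : ℕ) : ℝ) +
        ∑ h ∈ shg C K X, ((bel C K X h).card : ℝ))) := by
        refine mul_le_mul_of_nonneg_left ?_ (by norm_num)
        exact h1
    _ = (128 * c) * (max K 1 * C.wires K + ∑ h ∈ shg C K X, ((bel C K X h).card : ℝ)) := by
        push_cast
        ring
    _ ≤ q * (max K 1 * C.wires K + ∑ h ∈ shg C K X, ((bel C K X h).card : ℝ)) :=
        mul_le_mul_of_nonneg_right h128 hrhs

/-- The lower bound. -/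
theorem final (K w : ℕ) : ∃ q : ℕ, 0 < q ∧ ∀ n k : ℕ, 1 ≤ k → ∀ C : Circuit (Inp n),
    (∀ g, C.Big K g → SubPow w (C.op g)) → ∀ X : Finset C.Gate, X.card ≤ k →
      (1 / 2 + 1 / 2 ^ k) * 2 ^ (4 * n - 1) ≤ (agree C : ℝ) →
      (n : ℝ) * Real.log (n / (q * k)) ≤ q * (C.wires K + pairs C K X) ∧
      (∀ r : ℕ, (∀ g, C.Big K g → g ∉ X → (reach C K X g).card ≤ r) →
        (n : ℝ) * Real.log (n / (q * k)) ≤ q * ((r + 1) * C.wires K)) ∧
      (C.SharingDepthLE K X 1 → (n : ℝ) * Real.log (n / (q * k)) ≤ q * C.wires K) := by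
  obtain ⟨q, hq, h⟩ := main_bound K w
  refine ⟨q * (2 * max K 1), by positivity, ?_⟩
  intro n k hk C hop X hX hagr
  have h1 := h n k hk C hop X hX hagr
  have hqR : (0 : ℝ) < q := by exact_mod_cast hq
  have hkR : (1 : ℝ) ≤ k := by exact_mod_cast hk
  obtain ⟨κ, hκ⟩ : ∃ κ : ℝ, κ = ((max K 1 : ℕ) : ℝ) := ⟨_, rfl⟩
  have hK1 : (1 : ℝ) ≤ κ := by
    rw [hκ]
    exact_mod_cast (by omega : 1 ≤ max K 1)
  have hcast : ((q * (2 * max K 1) : ℕ) : ℝ) = q * (2 * κ) := by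
    rw [hκ, Nat.cast_mul, Nat.cast_mul]
    norm_num
  rw [← hκ] at h1
  rw [hcast]
  have hlog : (n : ℝ) * Real.log (n / (q * (2 * κ) * k)) ≤ n * Real.log (n / (q * k)) := by
    rcases Nat.eq_zero_or_pos n with h0 | h0
    · rw [h0]
      simp
    · have hnR : (0 : ℝ) < n := by exact_mod_cast h0
      refine mul_le_mul_of_nonneg_left ?_ hnR.le
      have e1 : (q : ℝ) ≤ q * (2 * κ) := by nlinarith
      have e2 : (0 : ℝ) < q * (2 * κ) := hqR.trans_le e1
      refine Real.log_le_log (by positivity) ?_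
      rw [div_le_div_iff₀ (by positivity) (by positivity)]
      refine mul_le_mul_of_nonneg_left ?_ hnR.le
      exact mul_le_mul_of_nonneg_right e1 (by linarith)
  have hV0 : (0 : ℝ) ≤ (C.wires K : ℝ) := Nat.cast_nonneg _
  have hκ0 : (0 : ℝ) ≤ κ := by linarith
  have hreach : ∀ r : ℕ, (∀ g, C.Big K g → g ∉ X → (reach C K X g).card ≤ r) →
      (∑ h ∈ shg C K X, ((bel C K X h).card : ℝ)) ≤ κ * (r * C.wires K) := by
    intro r hr
    have h3 := (Nat.cast_le (α := ℝ)).2 (reach_level C K X r hr)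
    rw [Nat.cast_sum, Nat.cast_mul, Nat.cast_mul, ← hκ] at h3
    exact h3
  refine ⟨?_, ?_, ?_⟩
  · have h2 : (∑ h ∈ shg C K X, ((bel C K X h).card : ℝ)) ≤ (pairs C K X : ℝ) := by
      have h3 : ∑ h ∈ shg C K X, (bel C K X h).card ≤ pairs C K X :=
        sum_le_sum fun g _ => card_le_card (bel_below g)
      have h4 := (Nat.cast_le (α := ℝ)).2 h3
      rw [Nat.cast_sum] at h4
      exact h4
    have hY0 : (0 : ℝ) ≤ (pairs C K X : ℝ) := Nat.cast_nonneg _
    refine hlog.trans (h1.trans ?_)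
    rw [mul_assoc]
    refine mul_le_mul_of_nonneg_left ?_ hqR.le
    have h5 : 0 ≤ κ * (C.wires K : ℝ) := mul_nonneg hκ0 hV0
    nlinarith
  · intro r hr
    have h2 := hreach r hr
    refine hlog.trans (h1.trans ?_)
    rw [mul_assoc]
    refine mul_le_mul_of_nonneg_left ?_ hqR.le
    have h5 : 0 ≤ κ * ((r : ℝ) * C.wires K) := by positivity
    have h6 : 0 ≤ κ * (C.wires K : ℝ) := mul_nonneg hκ0 hV0
    calc κ * (C.wires K : ℝ) + ∑ h ∈ shg C K X, ((bel C K X h).card : ℝ)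
        ≤ κ * (C.wires K : ℝ) + κ * (r * C.wires K) := by linarith
      _ ≤ 2 * κ * ((r + 1) * C.wires K) := by linarith
  · intro hd
    have h2 := hreach 1 fun g _ _ => reach_one C K X hd g
    refine hlog.trans (h1.trans ?_)
    rw [mul_assoc]
    refine mul_le_mul_of_nonneg_left ?_ hqR.le
    push_cast at h2
    linarith

end Pool.Agent.Lib_MP_22d2c8_oa
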