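import Pool.Agent.Lib_MP_22d2c8_oa.Count
import Pool.Agent.Lib_MP_22d2c8_oa.Double
import Pool.Agent.Lib_MP_22d2c8_oa.Corr

/-!
# One scale: the correlation with the function for a fixed restriction
-/

set_option linter.unusedSectionVars false

namespace Pool.Agent.Lib_MP_22d2c8_oa

open Finset Pool.Agent.Lib_MP_22d2c8_sym Pool.Agent.Lib_MP_22d2c8_ol

theorem supp_card {m : ℕ} (Z : Finset (Fin m)) :
    (univ.filter fun z : Fin m → Bool => ∀ g, g ∉ Z → z g = false).card ≤ 2 ^ Z.card := by
  classical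
  have h1 : (univ.filter fun z : Fin m → Bool => ∀ g, g ∉ Z → z g = false).card ≤
      Fintype.card (Z → Bool) := by
    rw [← Finset.card_univ]
    refine card_le_card_of_injOn (fun c i => c i.1) (fun _ _ => mem_coe.2 (mem_univ _)) ?_
    intro c hc c' hc' h
    have hc1 := (mem_filter.1 hc).2
    have hc1' := (mem_filter.1 hc').2
    funext i
    by_cases hi : i ∈ Z
    · exact congrFun h ⟨i, hi⟩
    · rw [hc1 i hi, hc1' i hi]
  rwa [Fintype.card_fun, Fintype.card_bool, Fintype.card_coe] at h1

variable {n : ℕ}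

/-- The sum over all inputs for a fixed assignment `α` outside `S`. -/
noncomputable def cor (A B : Finset (Fin n)) (α : Fin n ⊕ Fin n → Bool) (G : (Inp n → Bool) → ℝ) : ℝ :=
  ∑ t : Fin (2 * n - 1) → Bool, ∑ q : (Fin n → Bool) × (Fin n → Bool),
    G (inpt (A.disjSum B) α t (Sum.elim q.1 q.2)) * sgn (hank (inpt (A.disjSum B) α t
      (Sum.elim q.1 q.2)))

open Classical in
/-- the possible guesses -/
noncomputable def gss {m : ℕ} (Z : Finset (Fin m)) : Finset (Fin m → Bool) :=
  univ.filter fun z => ∀ g, g ∉ Z → z g = false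

section

variable (C : Circuit (Inp n)) (K : ℕ) (A B : Finset (Fin n)) (Z : Finset C.Gate)
  (α : Fin n ⊕ Fin n → Bool)

open Classical in
/-- the consistent pairs -/
noncomputable def con (z : C.Gate → Bool) (F : C.Gate → (Fin n ⊕ Fin n → Bool) → Bool) :
    Finset ((Fin n → Bool) × (Fin n → Bool)) :=
  univ.filter fun q => ∀ g ∈ Z, F g (Sum.elim q.1 q.2) = z g

open Classical in
/-- the true guess -/
noncomputable def tru (t : Fin (2 * n - 1) → Bool) (q : (Fin n → Bool) × (Fin n → Bool)) :
    C.Gate → Bool :=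
  fun g => if g ∈ Z then C.val (inpt (A.disjSum B) α t (Sum.elim q.1 q.2)) g else false

theorem tru_mem (t : Fin (2 * n - 1) → Bool) (q : (Fin n → Bool) × (Fin n → Bool)) :
    tru C A B Z α t q ∈ gss Z := by
  unfold gss
  refine mem_filter.2 ⟨mem_univ _, fun g hg => ?_⟩
  exact if_neg hg

theorem node_val (z : C.Gate → Bool) (t : Fin (2 * n - 1) → Bool) (g : C.Gate)
    (hg : Node C K (A.disjSum B) Z g) (s : Fin n ⊕ Fin n → Bool) :
    tup C K (A.disjSum B) Z α z t g s = mv C K Z z (inpt (A.disjSum B) α t s) g := if_pos hg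

theorem con_iff (z : C.Gate → Bool) (hz : z ∈ gss Z) (t : Fin (2 * n - 1) → Bool)
    (q : (Fin n → Bool) × (Fin n → Bool)) :
    q ∈ con C Z z (tup C K (A.disjSum B) Z α z t) ↔ tru C A B Z α t q = z := by
  classical
  have hz2 : ∀ g, g ∉ Z → z g = false := (mem_filter.1 hz).2
  constructor
  · intro hq
    have hq2 : ∀ g ∈ Z, tup C K (A.disjSum B) Z α z t g (Sum.elim q.1 q.2) = z g :=
      (mem_filter.1 hq).2
    have hv : ∀ g ∈ Z, mv C K Z z (inpt (A.disjSum B) α t (Sum.elim q.1 q.2)) g = z g := by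
      intro g hg
      rw [← node_val C K A B Z α z t g (Or.inl hg)]
      exact hq2 g hg
    funext g
    unfold tru
    by_cases hg : g ∈ Z
    · rw [if_pos hg, ← mv_val z _ (Or.inr hv) g]
      exact hv g hg
    · rw [if_neg hg, hz2 g hg]
  · intro h
    have hv : ∀ g ∈ Z, C.val (inpt (A.disjSum B) α t (Sum.elim q.1 q.2)) g = z g := by
      intro g hg
      rw [← h]
      exact (if_pos hg).symm
    refine mem_filter.2 ⟨mem_univ _, fun g hg => ?_⟩
    rw [node_val C K A B Z α z t g (Or.inl hg), mv_val z _ (Or.inl hv) g]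
    exact hv g hg

theorem con_out (z : C.Gate → Bool) (t : Fin (2 * n - 1) → Bool)
    (q : (Fin n → Bool) × (Fin n → Bool))
    (hq : q ∈ con C Z z (tup C K (A.disjSum B) Z α z t)) :
    tup C K (A.disjSum B) Z α z t C.out (Sum.elim q.1 q.2) =
      C.val (inpt (A.disjSum B) α t (Sum.elim q.1 q.2)) C.out := by
  have hq2 : ∀ g ∈ Z, tup C K (A.disjSum B) Z α z t g (Sum.elim q.1 q.2) = z g :=
    (mem_filter.1 hq).2
  have hv : ∀ g ∈ Z, mv C K Z z (inpt (A.disjSum B) α t (Sum.elim q.1 q.2)) g = z g := by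
    intro g hg
    rw [← node_val C K A B Z α z t g (Or.inl hg)]
    exact hq2 g hg
  rw [node_val C K A B Z α z t C.out (Or.inr (Or.inl rfl)), mv_val z _ (Or.inr hv) C.out]

open Classical in
/-- the tuples for the guess `z` -/
noncomputable def ims (z : C.Gate → Bool) : Finset (C.Gate → (Fin n ⊕ Fin n → Bool) → Bool) :=
  univ.image (tup C K (A.disjSum B) Z α z)

open Classical in
/-- the class of `t` -/
noncomputable def cls (z : C.Gate → Bool) (F : C.Gate → (Fin n ⊕ Fin n → Bool) → Bool) :
    Finset (Fin (2 * n - 1) → Bool) :=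
  univ.filter fun t => tup C K (A.disjSum B) Z α z t = F

theorem ims_card (ω : ℕ) (hop : ∀ g, C.Big K g → SubPow (2 ^ ω) (C.op g)) (hout : C.Big K C.out)
    (hZ : ∀ g ∈ Z, C.Big K g) (z : C.Gate → Bool) :
    (ims C K A B Z α z).card ≤ 2 ^ (ω * ((2 * (tB C K (A.disjSum B) +
      wsh C K (A.disjSum B) Z) + 1) + (Z.card + 1 + (tB C K (A.disjSum B) +
      wsh C K (A.disjSum B) Z))) + 2 ^ max K 1 * (2 * (tB C K (A.disjSum B) +
      wsh C K (A.disjSum B) Z) + 1)) := by
  classical
  set S := A.disjSum B with hS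
  have hNb : ∀ g, Node C K S Z g → C.Big K g := by
    rintro g (hg | rfl | hg)
    · exact hZ g hg
    · exact hout
    · exact hg.1
  have h1 := tup_card (C := C) (K := K) (S := S) (Z := Z) (α := α) z (2 ^ ω)
    fun g hg => hop g (hNb g hg)
  have h2 := nodes_le (C := C) (K := K) (S := S) (Z := Z) hZ hout
  have h3 : ∏ g ∈ univ.filter (fun g => Node C K S Z g),
      (2 ^ ω) ^ (nl C K S Z g + 1) * (2 ^ 2 ^ max K 1) ^ nl C K S Z g =
      2 ^ (ω * (∑ g ∈ univ.filter (fun g => Node C K S Z g), nl C K S Z g +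
          (univ.filter (fun g => Node C K S Z g)).card) +
        2 ^ max K 1 * ∑ g ∈ univ.filter (fun g => Node C K S Z g), nl C K S Z g) := by
    rw [prod_mul_distrib, prod_pow_eq_pow_sum, prod_pow_eq_pow_sum, sum_add_distrib, sum_const,
      smul_eq_mul, mul_one, ← pow_mul, ← pow_mul, ← pow_add]
  refine le_trans (card_le_card ?_) ((h1.trans (le_of_eq h3)).trans ?_)
  · intro F hF
    obtain ⟨t, -, rfl⟩ := mem_image.1 hF
    exact mem_image.2 ⟨t, @mem_univ _ (_) t, rfl⟩
  refine Nat.pow_le_pow_right (by norm_num) ?_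
  exact Nat.add_le_add (Nat.mul_le_mul_left _ (Nat.add_le_add h2.1 h2.2))
    (Nat.mul_le_mul_left _ h2.1)

/-- The decomposition of the correlation into classes. -/
theorem cor_eq (α' β' : Fin n → Bool) (hα : α = Sum.elim α' β') :
    cor A B α (fun x => sgn (C.val x C.out)) = ∑ z ∈ gss Z, ∑ F ∈ ims C K A B Z α z,
      ∑ t ∈ cls C K A B Z α z F, ∑ q ∈ con C Z z F,
        sgn (F C.out (Sum.elim q.1 q.2)) * chi (fm A B α' β' t q) := by
  classical
  have h1 : ∀ z ∈ gss Z, ∑ F ∈ ims C K A B Z α z,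
      ∑ t ∈ cls C K A B Z α z F, ∑ q ∈ con C Z z F,
        sgn (F C.out (Sum.elim q.1 q.2)) * chi (fm A B α' β' t q) =
      ∑ t : Fin (2 * n - 1) → Bool, ∑ q : (Fin n → Bool) × (Fin n → Bool),
        if tru C A B Z α t q = z then
          sgn (C.val (inpt (A.disjSum B) α t (Sum.elim q.1 q.2)) C.out) *
            chi (fm A B α' β' t q) else 0 := by
    intro z hz
    have h2 : ∀ F ∈ ims C K A B Z α z, ∑ t ∈ cls C K A B Z α z F, ∑ q ∈ con C Z z F,
        sgn (F C.out (Sum.elim q.1 q.2)) * chi (fm A B α' β' t q) =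
        ∑ t ∈ univ.filter (fun t => tup C K (A.disjSum B) Z α z t = F),
          ∑ q : (Fin n → Bool) × (Fin n → Bool), if tru C A B Z α t q = z then
          sgn (C.val (inpt (A.disjSum B) α t (Sum.elim q.1 q.2)) C.out) *
            chi (fm A B α' β' t q) else 0 := by
      intro F _
      have h3 : cls C K A B Z α z F =
          univ.filter (fun t => tup C K (A.disjSum B) Z α z t = F) := by
        unfold cls
        congr!
      rw [h3]
      refine sum_congr rfl fun t ht => ?_
      have htF := (mem_filter.1 ht).2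
      subst htF
      have h4 : con C Z z (tup C K (A.disjSum B) Z α z t) =
          univ.filter fun q => tru C A B Z α t q = z := by
        ext q
        rw [con_iff C K A B Z α z hz t q, mem_filter]
        exact ⟨fun h => ⟨mem_univ _, h⟩, fun h => h.2⟩
      rw [← sum_filter, ← h4]
      refine sum_congr rfl fun q hq => ?_
      rw [con_out C K A B Z α z t q hq]
    rw [sum_congr rfl h2]
    have h5 : ims C K A B Z α z = univ.image (tup C K (A.disjSum B) Z α z) := by
      unfold ims
      congr!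
    rw [h5]
    exact sum_fiberwise_of_maps_to (fun t _ => mem_image_of_mem _ (mem_univ t)) _
  rw [sum_congr rfl h1, sum_comm]
  unfold cor
  refine sum_congr rfl fun t _ => ?_
  rw [sum_comm]
  refine sum_congr rfl fun q _ => ?_
  rw [sum_ite_eq, if_pos (tru_mem C A B Z α t q), hα, hank_mix, sgn_decide]

theorem count_T (z : C.Gate → Bool) :
    ∑ F ∈ ims C K A B Z α z, ((cls C K A B Z α z F).card : ℝ) = 2 ^ (2 * n - 1) := by
  classical
  have h1 : ∑ F ∈ ims C K A B Z α z, (cls C K A B Z α z F).card = 2 ^ (2 * n - 1) := by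
    have h2 := card_eq_sum_card_fiberwise (s := (univ : Finset (Fin (2 * n - 1) → Bool)))
      (t := univ.image (tup C K (A.disjSum B) Z α z)) (f := tup C K (A.disjSum B) Z α z)
      (fun t _ => mem_coe.2 (mem_image_of_mem _ (mem_univ t)))
    rw [← card_fun_bool, h2]
    unfold ims cls
    congr!
  exact_mod_cast h1

theorem count_RT : ∑ z ∈ gss Z, ∑ F ∈ ims C K A B Z α z,
    ((con C Z z F).card : ℝ) * (cls C K A B Z α z F).card = 2 ^ (2 * n - 1) * 2 ^ (2 * n) := by
  classical
  have h1 : ∀ z ∈ gss Z, ∑ F ∈ ims C K A B Z α z,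
      ((con C Z z F).card : ℝ) * (cls C K A B Z α z F).card =
      ∑ t : Fin (2 * n - 1) → Bool, ∑ q : (Fin n → Bool) × (Fin n → Bool),
        if tru C A B Z α t q = z then (1 : ℝ) else 0 := by
    intro z hz
    have h2 : ∀ F ∈ ims C K A B Z α z, ((con C Z z F).card : ℝ) * (cls C K A B Z α z F).card =
        ∑ t ∈ univ.filter (fun t => tup C K (A.disjSum B) Z α z t = F),
          ∑ q : (Fin n → Bool) × (Fin n → Bool), if tru C A B Z α t q = z then (1 : ℝ) else 0 := by
      intro F _
      have h3 : cls C K A B Z α z F =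
          univ.filter (fun t => tup C K (A.disjSum B) Z α z t = F) := by
        unfold cls
        congr!
      rw [h3, mul_comm, ← nsmul_eq_mul, ← sum_const]
      refine sum_congr rfl fun t ht => ?_
      have htF := (mem_filter.1 ht).2
      subst htF
      rw [← sum_filter, sum_const, nsmul_eq_mul, mul_one]
      have h4 : con C Z z (tup C K (A.disjSum B) Z α z t) =
          univ.filter fun q => tru C A B Z α t q = z := by
        ext q
        rw [con_iff C K A B Z α z hz t q, mem_filter]
        exact ⟨fun h => ⟨mem_univ _, h⟩, fun h => h.2⟩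
      rw [h4]
    rw [sum_congr rfl h2]
    have h5 : ims C K A B Z α z = univ.image (tup C K (A.disjSum B) Z α z) := by
      unfold ims
      congr!
    rw [h5]
    exact sum_fiberwise_of_maps_to (fun t _ => mem_image_of_mem _ (mem_univ t)) _
  rw [sum_congr rfl h1, sum_comm]
  have h6 : ∀ t : Fin (2 * n - 1) → Bool, ∑ z ∈ gss Z,
      ∑ q : (Fin n → Bool) × (Fin n → Bool),
        (if tru C A B Z α t q = z then (1 : ℝ) else 0) = 2 ^ (2 * n) := by
    intro t
    rw [sum_comm]
    have h7 : ∀ q : (Fin n → Bool) × (Fin n → Bool), ∑ z ∈ gss Z,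
        (if tru C A B Z α t q = z then (1 : ℝ) else 0) = 1 := by
      intro q
      rw [sum_ite_eq, if_pos (tru_mem C A B Z α t q)]
    rw [sum_congr rfl fun q _ => h7 q, sum_const, nsmul_eq_mul, mul_one, card_univ,
      Fintype.card_prod, Fintype.card_fun, Fintype.card_bool, Fintype.card_fin]
    push_cast
    rw [two_mul, pow_add]
  rw [sum_congr rfl fun t _ => h6 t, sum_const, nsmul_eq_mul, card_fun_bool]
  push_cast
  ring

end

end Pool.Agent.Lib_MP_22d2c8_oa
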