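import Pool.Agent.Lib_MP_22d2c8_sym.Defs

/-!
# Gates with few subfunctions, threshold gates, the variables below a gate, the gates above a gate
-/

namespace Pool.Agent.Lib_MP_22d2c8_oa

open Finset Pool.Agent.Lib_MP_22d2c8_sym

/-- Fixing any set of arguments, of which `j` remain free, gives at most `w ^ (j + 1)` functions. -/
def SubPow (w : ℕ) {a : ℕ} (f : (Fin a → Bool) → Bool) : Prop :=
  ∀ I : Finset (Fin a), (univ.image (sub f I)).card ≤ w ^ (a - I.card + 1)

/-- `f` is a linear threshold function with real weights. -/
def Threshold {a : ℕ} (f : (Fin a → Bool) → Bool) : Prop :=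
  ∃ (c : Fin a → ℝ) (θ : ℝ), ∀ z, f z = true ↔ θ ≤ ∑ i, if z i = true then c i else 0

open Classical in
/-- The number of inputs on which the circuit agrees with the function `hank`. -/
noncomputable def agree {n : ℕ} (C : Circuit (Inp n)) : ℕ :=
  (univ.filter fun x : Inp n → Bool => C.val x C.out = hank x).card

section reach

variable {W U : Type} (C : Circuit (W ⊕ U)) (K : ℕ) (X : Finset C.Gate)

/-- The gate `g` is a source of the gate `g'`, and both are big gates outside `X`. -/
def Step (g g' : C.Gate) : Prop :=
  C.Big K g ∧ C.Big K g' ∧ g ∉ X ∧ g' ∉ X ∧ ∃ s, C.src g' s = Sum.inr g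

open Classical in
/-- The shared big gates outside `X`. -/
noncomputable def shg : Finset C.Gate := univ.filter fun h => C.Big K h ∧ h ∉ X ∧ C.Shared K h

open Classical in
/-- The shared gates that can be reached from `g` by a path (possibly of length zero) of big gates
outside `X`. -/
noncomputable def reach (g : C.Gate) : Finset C.Gate :=
  (shg C K X).filter fun h => Relation.ReflTransGen (Step C K X) g h

end reach

variable {W U : Type} [DecidableEq W]

/-- The variable in `W`, if any. -/
def own : W ⊕ U → Finset W
  | Sum.inl w => {w}
  | Sum.inr _ => ∅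

/-- The variables in `W` below a gate: those from which a directed path leads to the gate. -/
def below (C : Circuit (W ⊕ U)) : C.Gate → Finset W :=
  C.fold own (fun _ B => B) fun _ F => univ.biUnion F

/-- The number of pairs of a variable in `W` and a shared big gate outside `X` above it. -/
noncomputable def pairs (C : Circuit (W ⊕ U)) (K : ℕ) (X : Finset C.Gate) : ℕ :=
  ∑ h ∈ shg C K X, (below C h).card

end Pool.Agent.Lib_MP_22d2c8_oa
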