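import Pool.Agent.Lib_MP_22d2c8_oa.Bound
import Pool.Agent.Lib_MP_22d2c8_oa.Avg
import Pool.Agent.Lib_MP_22d2c8_oa.Aver

/-!
# One scale, in the form needed for the summation over the scales
-/

set_option linter.unusedSectionVars false

namespace Pool.Agent.Lib_MP_22d2c8_oa

open Finset Pool.Agent.Lib_MP_22d2c8_sym Pool.Agent.Lib_MP_22d2c8_ol

/-- The inequality of one scale. -/
theorem step {n p : ℕ} [hp : Fact p.Prime] (hn : 2 * p * p ≤ n) (C : Circuit (Inp n)) (K ω k : ℕ)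
    (hk : 1 ≤ k) (hop : ∀ g, C.Big K g → SubPow (2 ^ ω) (C.op g))
    (hagr : 2 * ((2 : ℝ) ^ (2 * n - 1) * 2 ^ (2 * n)) / 2 ^ k ≤
      ∑ x, sgn (C.val x C.out) * sgn (hank x))
    (hout : C.Big K C.out) (X : Finset C.Gate) (hXk : X.card ≤ k)
    (hP : 32 * (2 + 2 * ω + 2 ^ max K 1) ≤ p) (i : ℕ) (hk2 : 160 * k ≤ p * 2 ^ i)
    (hi : (2 * (2 + ω)) * 2 ^ i ≤ p) :
    (p : ℝ) ^ 2 ≤ (64 + 16 * (3 * ω + 2 * 2 ^ max K 1)) *
      ((2 : ℝ) ^ i / p * ((max K 1 * C.wires K : ℕ) : ℝ) +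
        ∑ h ∈ shg C K X, (if (bel C K X h).card * 2 ^ i ≤ p then
          (fo C K h : ℝ) * ((bel C K X h).card * 2 ^ i / p) else 0) +
        ∑ h ∈ shg C K X, (if p < (bel C K X h).card * 2 ^ i then (p : ℝ) / 2 ^ i else 0)) := by
  classical
  set L := 2 ^ i with hL
  have hL1 : 1 ≤ L := Nat.one_le_two_pow
  have hωL : (2 + ω) * (2 * L) ≤ p := by
    calc (2 + ω) * (2 * L) = 2 * (2 + ω) * L := by ring
      _ ≤ p := hi
  have hL2 : 2 * L ≤ p := by
    refine le_trans ?_ hωL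
    exact Nat.le_mul_of_pos_left _ (by omega)
  have h2K : 1 ≤ 2 ^ max K 1 := Nat.one_le_two_pow
  have hp32 : 64 ≤ p := by omega
  have h2p : p ≠ 2 := by omega
  have hpR : (0 : ℝ) < p := by exact_mod_cast (by omega : 0 < p)
  have hLR : ((L : ℕ) : ℝ) = (2 : ℝ) ^ i := by rw [hL]; push_cast; rfl
  have hLpos : (0 : ℝ) < (2 : ℝ) ^ i := by positivity
  set V := max K 1 * C.wires K with hV
  set X2 := ∑ h ∈ shg C K X, (if (bel C K X h).card * 2 ^ i ≤ p then
          (fo C K h : ℝ) * ((bel C K X h).card * 2 ^ i / p) else 0) with hX2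
  set X3 := ∑ h ∈ shg C K X, (if p < (bel C K X h).card * 2 ^ i then (p : ℝ) / 2 ^ i else 0)
    with hX3
  have hX20 : 0 ≤ X2 := by
    refine sum_nonneg fun h _ => ?_
    split
    · positivity
    · exact le_refl _
  have hX30 : 0 ≤ X3 := by
    refine sum_nonneg fun h _ => ?_
    split
    · positivity
    · exact le_refl _
  have hX10 : 0 ≤ (2 : ℝ) ^ i / p * (V : ℝ) := by positivity
  set Q : ℝ := 3 * ω + 2 * 2 ^ max K 1 with hQ
  have hQ0 : 0 ≤ Q := by positivity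
  set ρ := p * L / 16 with hρ
  have hρ1 : 16 * ρ ≤ p * L := by
    rw [hρ, mul_comm 16]
    exact Nat.div_mul_le_self _ _
  have hkρ : 10 * k ≤ ρ := by
    rw [hρ]
    omega
  set Z1 : Finset C.Gate := (shg C K X).filter fun h => p < (bel C K X h).card * L with hZ1
  set X' : Finset C.Gate := X.filter fun h => C.Big K h with hX'
  set Z : Finset C.Gate := X' ∪ Z1 with hZ
  have hX'c : X'.card ≤ k := (card_le_card (filter_subset _ _)).trans hXk
  have hZ1sub : Z1 ⊆ shg C K X := filter_subset _ _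
  have hZbig : ∀ g ∈ Z, C.Big K g := by
    intro g hg
    rcases mem_union.1 hg with hg | hg
    · exact (mem_filter.1 hg).2
    · exact (mem_filter.1 (hZ1sub hg)).2.1
  have hXZ : ∀ h ∈ X, C.Big K h → h ∈ Z := fun h hX hb =>
    mem_union_left _ (mem_filter.2 ⟨hX, hb⟩)
  have hZcard : Z.card ≤ k + Z1.card :=
    (card_union_le _ _).trans (Nat.add_le_add_right hX'c _)
  rcases Nat.lt_or_ge ρ (2 * Z1.card) with hcase | hcase
  · -- many gates with many variables below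
    have h3 : X3 = Z1.card * ((p : ℝ) / 2 ^ i) := by
      rw [hX3, ← sum_filter, sum_const, nsmul_eq_mul]
    have h4 : p * L ≤ 64 * Z1.card := by
      have h6 : p * L < 16 * ρ + 16 := by
        rw [hρ]
        omega
      omega
    have h5 : (p : ℝ) * 2 ^ i ≤ 64 * Z1.card := by
      rw [← hLR]
      exact_mod_cast h4
    have h6 : (p : ℝ) ^ 2 ≤ 64 * X3 := by
      rw [h3]
      have h7 : (p : ℝ) ^ 2 = (p * 2 ^ i) * (p / 2 ^ i) := by
        field_simp
      rw [h7]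
      calc (p : ℝ) * 2 ^ i * (p / 2 ^ i) ≤ 64 * Z1.card * (p / 2 ^ i) :=
            mul_le_mul_of_nonneg_right h5 (by positivity)
        _ = 64 * (Z1.card * ((p : ℝ) / 2 ^ i)) := by ring
    have h7 : 0 ≤ 16 * Q * ((2 : ℝ) ^ i / p * V + X2 + X3) :=
      mul_nonneg (mul_nonneg (by norm_num) hQ0) (by linarith)
    calc (p : ℝ) ^ 2 ≤ 64 * X3 := h6
      _ ≤ (64 + 16 * Q) * ((2 : ℝ) ^ i / p * V + X2 + X3) := by linarith
  · -- few gates with many variables below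
    have hZk : Z.card + 2 * k ≤ ρ := by omega
    have hZk2 : Z.card + 2 * k + 2 ≤ ρ := by omega
    have hA : ∀ v v' : ZMod p, ((p * p / 8 : ℕ) : ℝ) ≤ (1 + ω) * (ρ : ℝ) +
        (1 + 2 * ω + 2 ^ max K 1) +
        Q * ((tB C K (gS n p L v v') : ℝ) + (wsh C K (gS n p L v v') Z : ℝ)) := by
      intro v v'
      obtain ⟨α, hα⟩ := exists_alpha (Lib_MP_22d2c8_ol.gA n p L v) (Lib_MP_22d2c8_ol.gB n p L v')
        (fun x => sgn (C.val x C.out)) _ hagr
      have h1 := one_alpha hn h2p hL1 hL2 C K ω k hop hout Z hZbig hZk2 v v' α hα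
      have h2 : ((p * p / 8 : ℕ) : ℝ) ≤ ((Z.card +
          (ω * ((2 * (tB C K (gS n p L v v') + wsh C K (gS n p L v v') Z) + 1) +
            (Z.card + 1 + (tB C K (gS n p L v v') + wsh C K (gS n p L v v') Z))) +
            2 ^ max K 1 * (2 * (tB C K (gS n p L v v') + wsh C K (gS n p L v v') Z) + 1)) +
            2 * k : ℕ) : ℝ) :=
        Nat.cast_le.2 h1
      have h3 : (Z.card : ℝ) + 2 * k ≤ ρ := by exact_mod_cast hZk
      have h4 : (ω : ℝ) * Z.card ≤ ω * ρ := by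
        refine mul_le_mul_of_nonneg_left ?_ (Nat.cast_nonneg _)
        exact_mod_cast (by omega : Z.card ≤ ρ)
      refine h2.trans ?_
      push_cast
      rw [hQ]
      have h5 : ((Z.card : ℝ) + (ω * ((2 * ((tB C K (gS n p L v v') : ℝ) +
          wsh C K (gS n p L v v') Z) + 1) + (Z.card + 1 + ((tB C K (gS n p L v v') : ℝ) +
          wsh C K (gS n p L v v') Z))) + 2 ^ max K 1 * (2 * ((tB C K (gS n p L v v') : ℝ) +
          wsh C K (gS n p L v v') Z) + 1)) + 2 * k) = (Z.card + 2 * k) + ω * Z.card +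
          (2 * ω + 2 ^ max K 1) + (3 * ω + 2 * 2 ^ max K 1) *
          ((tB C K (gS n p L v v') : ℝ) + wsh C K (gS n p L v v') Z) := by ring
      rw [h5]
      linarith
    have hcard : ((univ : Finset (ZMod p)).card : ℝ) = p := by
      rw [card_univ, ZMod.card]
    have hsum : (p : ℝ) ^ 2 * ((p * p / 8 : ℕ) : ℝ) ≤
        (p : ℝ) ^ 2 * ((1 + ω) * (ρ : ℝ) + (1 + 2 * ω + 2 ^ max K 1)) +
        Q * ((∑ v : ZMod p, ∑ v' : ZMod p, (tB C K (gS n p L v v') : ℝ)) +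
          ∑ v : ZMod p, ∑ v' : ZMod p, (wsh C K (gS n p L v v') Z : ℝ)) := by
      have h1 : ∑ v : ZMod p, ∑ v' : ZMod p, ((p * p / 8 : ℕ) : ℝ) ≤
          ∑ v : ZMod p, ∑ v' : ZMod p, ((1 + ω) * (ρ : ℝ) + (1 + 2 * ω + 2 ^ max K 1) +
            Q * ((tB C K (gS n p L v v') : ℝ) + (wsh C K (gS n p L v v') Z : ℝ))) :=
        sum_le_sum fun v _ => sum_le_sum fun v' _ => hA v v'
      simp only [sum_const, sum_add_distrib, nsmul_eq_mul, hcard, ← mul_sum] at h1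
      calc (p : ℝ) ^ 2 * ((p * p / 8 : ℕ) : ℝ) = p * (p * ((p * p / 8 : ℕ) : ℝ)) := by ring
        _ ≤ _ := h1
        _ = _ := by ring
    have ht1 : (∑ v : ZMod p, ∑ v' : ZMod p, (tB C K (gS n p L v v') : ℝ)) ≤
        (p : ℝ) * 2 ^ i * V := by
      have h1 := sum_tB C K p L
      have h2 : ((∑ v : ZMod p, ∑ v' : ZMod p, tB C K (gS n p L v v') : ℕ) : ℝ) ≤
          ((p * L * (max K 1 * C.wires K) : ℕ) : ℝ) := Nat.cast_le.2 h1
      rw [← hLR]
      refine le_trans (le_of_eq ?_) (h2.trans (le_of_eq ?_))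
      · push_cast
        rfl
      · push_cast
        rw [hV]
        push_cast
        ring
    have ht2 : (∑ v : ZMod p, ∑ v' : ZMod p, (wsh C K (gS n p L v v') Z : ℝ)) ≤
        (p : ℝ) * (p * X2) := by
      have h1 := sum_wsh C K p L X Z hXZ
      have h2 : ((∑ v : ZMod p, ∑ v' : ZMod p, wsh C K (gS n p L v v') Z : ℕ) : ℝ) ≤
          ((p * L * ∑ h ∈ univ.filter (fun h => C.Big K h ∧ h ∉ Z ∧ C.Shared K h),
        fo C K h * (bel C K X h).card : ℕ) : ℝ) := by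
        refine (Nat.cast_le.2 h1).trans (le_of_eq ?_)
        congr!
      have h3 : (p : ℝ) * (p * X2) = p * L * ∑ h ∈ univ.filter (fun h => C.Big K h ∧ h ∉ Z ∧
          C.Shared K h), (fo C K h : ℝ) * (bel C K X h).card := by
        have h4 : univ.filter (fun h => C.Big K h ∧ h ∉ Z ∧ C.Shared K h) =
            (shg C K X).filter fun h => (bel C K X h).card * 2 ^ i ≤ p := by
          ext h
          simp only [mem_filter, mem_univ, true_and, hZ, hZ1, hX', shg, mem_union, not_or, not_and]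
          constructor
          · rintro ⟨h5, ⟨h6, h8⟩, h7⟩
            have h9 : h ∉ X := fun hx => h6 hx h5
            refine ⟨⟨h5, h9, h7⟩, ?_⟩
            by_contra hc
            exact h8 ⟨h5, h9, h7⟩ (Nat.lt_of_not_le hc)
          · rintro ⟨⟨h5, h9, h7⟩, h6⟩
            exact ⟨h5, ⟨fun hx => absurd hx h9, fun _ => Nat.not_lt_of_le h6⟩, h7⟩
        rw [h4, hX2, ← sum_filter, mul_sum, mul_sum, mul_sum]
        refine sum_congr rfl fun h _ => ?_
        rw [hLR]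
        field_simp
      rw [h3]
      refine le_trans (le_of_eq ?_) (h2.trans (le_of_eq ?_))
      · push_cast
        rfl
      · push_cast
        rfl
    have hZc : ((1 : ℝ) + ω) * ρ ≤ (p : ℝ) ^ 2 / 32 := by
      have h2 : 32 * ((1 + ω) * ρ) ≤ p * p := by
        calc 32 * ((1 + ω) * ρ) = (1 + ω) * 2 * (16 * ρ) := by ring
          _ ≤ (1 + ω) * 2 * (p * L) := Nat.mul_le_mul_left _ hρ1
          _ = p * ((1 + ω) * (2 * L)) := by ring
          _ ≤ p * p := Nat.mul_le_mul_left _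
              (le_trans (Nat.mul_le_mul_right _ (by omega)) hωL)
      have h3 : (32 : ℝ) * ((1 + ω) * ρ) ≤ p * p := by exact_mod_cast h2
      linarith [sq (p : ℝ)]
    have hP' : (1 : ℝ) + 2 * ω + 2 ^ max K 1 ≤ (p : ℝ) ^ 2 / 32 - 1 := by
      have h1 : (32 : ℝ) * (2 + 2 * ω + 2 ^ max K 1) ≤ p := by exact_mod_cast hP
      have h2 : (p : ℝ) ≤ (p : ℝ) ^ 2 := by
        have : (1 : ℝ) ≤ p := by exact_mod_cast (by omega : 1 ≤ p)
        nlinarith
      linarith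
    have hfl : (p : ℝ) ^ 2 / 8 - 1 ≤ ((p * p / 8 : ℕ) : ℝ) := by
      have h1 : p * p < 8 * (p * p / 8) + 8 := by omega
      have h2 : (p : ℝ) * p < 8 * ((p * p / 8 : ℕ) : ℝ) + 8 := by exact_mod_cast h1
      linarith [sq (p : ℝ)]
    have hp2 : (0 : ℝ) < (p : ℝ) ^ 2 := by positivity
    have hfin : (p : ℝ) ^ 2 * ((p : ℝ) ^ 2 / 16) ≤ Q * ((p : ℝ) * 2 ^ i * V + p * (p * X2)) := by
      have h1 : (p : ℝ) ^ 2 * ((p : ℝ) ^ 2 / 8 - 1) ≤ (p : ℝ) ^ 2 * ((p * p / 8 : ℕ) : ℝ) :=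
        mul_le_mul_of_nonneg_left hfl hp2.le
      have h2 : (p : ℝ) ^ 2 * ((1 + ω) * (ρ : ℝ) + (1 + 2 * ω + 2 ^ max K 1)) ≤
          (p : ℝ) ^ 2 * ((p : ℝ) ^ 2 / 32 + ((p : ℝ) ^ 2 / 32 - 1)) :=
        mul_le_mul_of_nonneg_left (add_le_add hZc hP') hp2.le
      have h3 := mul_le_mul_of_nonneg_left (add_le_add ht1 ht2) hQ0
      linarith
    have hfin2 : (p : ℝ) ^ 2 ≤ 16 * Q * ((2 : ℝ) ^ i / p * V + X2) := by
      have h1 : (p : ℝ) ^ 2 * (16 * Q * ((2 : ℝ) ^ i / p * V + X2)) =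
          16 * (Q * ((p : ℝ) * 2 ^ i * V + p * (p * X2))) := by
        field_simp
      have h2 : (p : ℝ) ^ 2 * (p : ℝ) ^ 2 ≤ (p : ℝ) ^ 2 * (16 * Q * ((2 : ℝ) ^ i / p * V + X2)) := by
        rw [h1]
        linarith
      exact le_of_mul_le_mul_left h2 hp2
    calc (p : ℝ) ^ 2 ≤ 16 * Q * ((2 : ℝ) ^ i / p * V + X2) := hfin2
      _ ≤ (64 + 16 * Q) * ((2 : ℝ) ^ i / p * V + X2 + X3) := by
          have h1 : 0 ≤ 64 * ((2 : ℝ) ^ i / p * V + X2 + X3) := by linarith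
          have h2 : 0 ≤ 16 * Q * X3 := mul_nonneg (mul_nonneg (by norm_num) hQ0) hX30
          linarith

end Pool.Agent.Lib_MP_22d2c8_oa
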